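import Mathlib

set_option autoImplicit false
set_option linter.unusedSectionVars false

namespace Pool.Agent.Helper263.Recski

open Finset

abbrev F2 := ZMod 2

theorem f2_cases (a : F2) : a = 0 ∨ a = 1 := by
  revert a; decide

theorem f2_add_self (a : F2) : a + a = 0 := by
  revert a; decide

theorem f2_ne_zero {a : F2} : a ≠ 0 ↔ a = 1 := by
  revert a; decide

section Basic

variable {α : Type} [Fintype α] [DecidableEq α]

theorem vec_add_self (z : α → F2) : z + z = 0 := by
  funext x; exact f2_add_self _

theorem vec_add_cancel (z w : α → F2) : z + (z + w) = w := by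
  rw [← add_assoc, vec_add_self, zero_add]

/-- vectors supported in `A` -/
def supIn (A : Finset α) : Submodule F2 (α → F2) where
  carrier := {z | ∀ x ∉ A, z x = 0}
  add_mem' := by
    intro a b ha hb x hx
    simp [ha x hx, hb x hx]
  zero_mem' := by
    intro x _
    rfl
  smul_mem' := by
    intro c z hz x hx
    simp [hz x hx]

theorem mem_sup {A : Finset α} {z : α → F2} : z ∈ supIn A ↔ ∀ x ∉ A, z x = 0 := Iff.rfl

/-- the part of `Z` supported in `A` -/
def restr (Z : Submodule F2 (α → F2)) (A : Finset α) : Submodule F2 (α → F2) := Z ⊓ supIn A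

theorem mem_restr {Z : Submodule F2 (α → F2)} {A : Finset α} {z : α → F2} :
    z ∈ restr Z A ↔ z ∈ Z ∧ ∀ x ∉ A, z x = 0 := Iff.rfl

/-- the nullity -/
noncomputable def nul (Z : Submodule F2 (α → F2)) (A : Finset α) : ℕ :=
  Module.finrank F2 (restr Z A)

def Ind (Z : Submodule F2 (α → F2)) (A : Finset α) : Prop :=
  ∀ z ∈ Z, (∀ x ∉ A, z x = 0) → z = 0

theorem restr_mono (Z : Submodule F2 (α → F2)) {A B : Finset α} (h : A ⊆ B) :
    restr Z A ≤ restr Z B := by
  intro z hz
  exact ⟨hz.1, fun x hx => hz.2 x (fun h' => hx (h h'))⟩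

theorem nul_mono (Z : Submodule F2 (α → F2)) {A B : Finset α} (h : A ⊆ B) :
    nul Z A ≤ nul Z B := Submodule.finrank_mono (restr_mono Z h)

theorem restr_inf (Z : Submodule F2 (α → F2)) (A B : Finset α) :
    restr Z A ⊓ restr Z B = restr Z (A ∩ B) := by
  ext z
  simp only [Submodule.mem_inf, mem_restr, Finset.mem_inter]
  constructor
  · rintro ⟨⟨h1, h2⟩, -, h3⟩
    refine ⟨h1, fun x hx => ?_⟩
    by_cases hA : x ∈ A
    · exact h3 x (fun hB => hx ⟨hA, hB⟩)
    · exact h2 x hA
  · rintro ⟨h1, h2⟩
    exact ⟨⟨h1, fun x hx => h2 x (fun h => hx h.1)⟩, h1, fun x hx => h2 x (fun h => hx h.2)⟩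

theorem nul_super (Z : Submodule F2 (α → F2)) (A B : Finset α) :
    nul Z A + nul Z B ≤ nul Z (A ∪ B) + nul Z (A ∩ B) := by
  unfold nul
  rw [← restr_inf, ← Submodule.finrank_sup_add_finrank_inf_eq]
  gcongr
  apply Submodule.finrank_mono
  exact sup_le (restr_mono Z subset_union_left) (restr_mono Z subset_union_right)

theorem nul_eq_zero {Z : Submodule F2 (α → F2)} {A : Finset α} : nul Z A = 0 ↔ Ind Z A := by
  unfold nul Ind
  rw [Submodule.finrank_eq_zero]
  constructor
  · intro h z hz hz'
    have : z ∈ restr Z A := ⟨hz, hz'⟩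
    rw [h] at this
    simpa using this
  · intro h
    rw [eq_bot_iff]
    intro z hz
    rw [Submodule.mem_bot]
    exact h z hz.1 hz.2

theorem nul_empty (Z : Submodule F2 (α → F2)) : nul Z ∅ = 0 := by
  rw [nul_eq_zero]
  intro z _ h
  funext x
  exact h x (by simp)

theorem nul_insert_le (Z : Submodule F2 (α → F2)) (A : Finset α) (x : α) :
    nul Z (insert x A) ≤ nul Z A + 1 := by
  unfold nul
  let ev : restr Z (insert x A) →ₗ[F2] F2 := (LinearMap.proj x).comp (Submodule.subtype _)
  have h1 := LinearMap.finrank_range_add_finrank_ker ev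
  have h2 : Module.finrank F2 (LinearMap.range ev) ≤ 1 := by
    have := Submodule.finrank_le (LinearMap.range ev)
    simpa using this
  have h3 : Module.finrank F2 (LinearMap.ker ev) ≤ Module.finrank F2 (restr Z A) := by
    let j : LinearMap.ker ev →ₗ[F2] restr Z A :=
      { toFun := fun z => ⟨z.1.1, z.1.2.1, fun y hy => by
          by_cases hyx : y = x
          · subst hyx
            exact z.2
          · exact z.1.2.2 y (by simp [hyx, hy])⟩
        map_add' := fun _ _ => rfl
        map_smul' := fun _ _ => rfl }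
    apply LinearMap.finrank_le_finrank_of_injective (f := j)
    intro z w hzw
    apply Subtype.ext
    apply Subtype.ext
    have := congrArg Subtype.val hzw
    exact this
  omega

theorem nul_union_le (Z : Submodule F2 (α → F2)) (A S : Finset α) :
    nul Z (A ∪ S) ≤ nul Z A + S.card := by
  induction S using Finset.induction_on with
  | empty => simp
  | insert x S hx ih =>
    rw [Finset.union_insert, Finset.card_insert_of_notMem hx]
    have := nul_insert_le Z (A ∪ S) x
    omega

theorem nul_lt_of_mem {Z : Submodule F2 (α → F2)} {A : Finset α} {x : α} {z : α → F2}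
    (hz : z ∈ Z) (hzA : ∀ y ∉ A, z y = 0) (hx : z x ≠ 0) :
    nul Z (A.erase x) < nul Z A := by
  apply Submodule.finrank_lt_finrank_of_lt
  apply lt_of_le_of_ne (restr_mono Z (Finset.erase_subset _ _))
  intro h
  have : z ∈ restr Z (A.erase x) := by rw [h]; exact ⟨hz, hzA⟩
  exact hx (this.2 x (by simp))

theorem nul_erase {Z : Submodule F2 (α → F2)} {A : Finset α} {x : α} {z : α → F2}
    (hz : z ∈ Z) (hzA : ∀ y ∉ A, z y = 0) (hx : z x ≠ 0) :
    nul Z (A.erase x) + 1 = nul Z A := by
  have hxA : x ∈ A := by
    by_contra h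
    exact hx (hzA x h)
  have h1 := nul_lt_of_mem hz hzA hx
  have h2 := nul_insert_le Z (A.erase x) x
  rw [Finset.insert_erase hxA] at h2
  omega

/-- support -/
def supp (z : α → F2) : Finset α := Finset.univ.filter (fun x => z x ≠ 0)

theorem mem_supp {z : α → F2} {x : α} : x ∈ supp z ↔ z x ≠ 0 := by simp [supp]

theorem supp_subset {z : α → F2} {A : Finset α} : supp z ⊆ A ↔ ∀ x ∉ A, z x = 0 := by
  constructor
  · intro h x hx
    by_contra h'
    exact hx (h (mem_supp.2 h'))
  · intro h x hx
    by_contra h'
    exact mem_supp.1 hx (h x h')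

theorem supp_eq_iff {z w : α → F2} : supp z = supp w ↔ z = w := by
  constructor
  · intro h
    funext x
    have : x ∈ supp z ↔ x ∈ supp w := by rw [h]
    rw [mem_supp, mem_supp, f2_ne_zero, f2_ne_zero] at this
    rcases f2_cases (z x) with h0 | h0 <;> rcases f2_cases (w x) with h1 | h1
    · rw [h0, h1]
    · rw [h0, h1] at this; simp at this
    · rw [h0, h1] at this; simp at this
    · rw [h0, h1]
  · rintro rfl; rfl

/-- circuits -/
def Circ (Z : Submodule F2 (α → F2)) (C : α → F2) : Prop :=
  C ∈ Z ∧ C ≠ 0 ∧ ∀ z ∈ Z, (∀ x, C x = 0 → z x = 0) → z = 0 ∨ z = C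

/-- adding a vector with smaller support shrinks the support -/
theorem supp_add_of_subset {z w : α → F2} (h : ∀ x, z x = 0 → w x = 0) :
    supp (z + w) = supp z \ supp w := by
  ext x
  simp only [Finset.mem_sdiff, mem_supp, Pi.add_apply, ne_eq, not_not]
  have := h x
  revert this
  generalize z x = a
  generalize w x = b
  revert a b
  decide

theorem exists_circ {Z : Submodule F2 (α → F2)} {z : α → F2} (hz : z ∈ Z) {y : α}
    (hy : z y ≠ 0) : ∃ C, Circ Z C ∧ C y ≠ 0 ∧ ∀ x, z x = 0 → C x = 0 := by
  classical
  -- strong induction on the size of the support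
  induction hn : (supp z).card using Nat.strong_induction_on generalizing z with
  | _ n ih =>
    by_cases hc : Circ Z z
    · exact ⟨z, hc, hy, fun x h => h⟩
    · have hz0 : z ≠ 0 := by
        rintro rfl
        exact hy rfl
      have : ∃ w ∈ Z, (∀ x, z x = 0 → w x = 0) ∧ w ≠ 0 ∧ w ≠ z := by
        by_contra hcon
        push Not at hcon
        apply hc
        refine ⟨hz, hz0, fun w hw hwz => ?_⟩
        by_cases hw0 : w = 0
        · exact Or.inl hw0
        · exact Or.inr (hcon w hw hwz hw0)
      obtain ⟨w, hw, hwz, hw0, hwne⟩ := this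
      have hsub : supp w ⊆ supp z := by
        intro x hx
        rw [mem_supp] at *
        exact fun h => hx (hwz x h)
      by_cases hwy : w y = 0
      · -- use z + w
        have h1 : (supp (z + w)).card < n := by
          rw [supp_add_of_subset hwz, ← hn]
          apply Finset.card_lt_card
          refine ⟨Finset.sdiff_subset, fun h => ?_⟩
          obtain ⟨x, hx⟩ := Function.ne_iff.1 hw0
          have hxw : x ∈ supp w := mem_supp.2 hx
          exact (Finset.mem_sdiff.1 (h (hsub hxw))).2 hxw
        obtain ⟨C, hC, hCy, hCz⟩ := ih _ h1 (Z.add_mem hz hw) (by simp [hwy, hy]) rfl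
        refine ⟨C, hC, hCy, fun x hx => hCz x ?_⟩
        simp [hx, hwz x hx]
      · have h1 : (supp w).card < n := by
          rw [← hn]
          apply Finset.card_lt_card
          refine ⟨hsub, fun h => hwne ?_⟩
          exact supp_eq_iff.1 (Finset.Subset.antisymm hsub h)
        obtain ⟨C, hC, hCy, hCz⟩ := ih _ h1 hw hwy rfl
        exact ⟨C, hC, hCy, fun x hx => hCz x (hwz x hx)⟩

theorem exists_circ' {Z : Submodule F2 (α → F2)} {z : α → F2} (hz : z ∈ Z) (h0 : z ≠ 0) :
    ∃ C, Circ Z C ∧ ∀ x, z x = 0 → C x = 0 := by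
  obtain ⟨y, hy⟩ := Function.ne_iff.1 h0
  obtain ⟨C, h1, -, h3⟩ := exists_circ hz hy
  exact ⟨C, h1, h3⟩

/-- a statement closed under addition and true for circuits holds on Z -/
theorem circ_induction {Z : Submodule F2 (α → F2)} (W : Submodule F2 (α → F2))
    (h : ∀ C, Circ Z C → C ∈ W) : Z ≤ W := by
  classical
  intro z hz
  induction hn : (supp z).card using Nat.strong_induction_on generalizing z with
  | _ n ih =>
    by_cases h0 : z = 0
    · rw [h0]; exact W.zero_mem
    · obtain ⟨C, hC, hCz⟩ := exists_circ' hz h0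
      have h1 : (supp (z + C)).card < n := by
        rw [supp_add_of_subset hCz, ← hn]
        apply Finset.card_lt_card
        refine ⟨Finset.sdiff_subset, fun h => ?_⟩
        obtain ⟨x, hx⟩ := Function.ne_iff.1 hC.2.1
        have hxw : x ∈ supp C := mem_supp.2 hx
        have hxz : x ∈ supp z := mem_supp.2 (fun h' => hx (hCz x h'))
        exact (Finset.mem_sdiff.1 (h hxz)).2 hxw
      have h2 := ih _ h1 (Z.add_mem hz hC.1) rfl
      have : z = (z + C) + C := by rw [add_assoc, vec_add_self, add_zero]
      rw [this]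
      exact W.add_mem h2 (h C hC)

theorem circ_nul {Z : Submodule F2 (α → F2)} {C : α → F2} (hC : Circ Z C) :
    nul Z (supp C) = 1 := by
  obtain ⟨y, hy⟩ := Function.ne_iff.1 hC.2.1
  have h1 := nul_erase (A := supp C) hC.1 (supp_subset.1 (Finset.Subset.refl _)) hy
  have h2 : nul Z ((supp C).erase y) = 0 := by
    rw [nul_eq_zero]
    intro z hz hzx
    rcases hC.2.2 z hz (fun x hx => hzx x (fun h => (mem_supp.1 (Finset.mem_of_mem_erase h)) hx))
      with h | h
    · exact h
    · exfalso
      apply hy
      rw [← h]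
      exact hzx y (by simp)
  omega

/-- zero out the coordinates in the support of `K` -/
def off (A : Finset α) : (α → F2) →ₗ[F2] (α → F2) where
  toFun z := fun x => if x ∈ A then 0 else z x
  map_add' := by
    intro a b
    funext x
    by_cases h : x ∈ A <;> simp [h]
  map_smul' := by
    intro c a
    funext x
    by_cases h : x ∈ A <;> simp [h]

theorem off_apply (A : Finset α) (z : α → F2) (x : α) :
    off A z x = if x ∈ A then 0 else z x := rfl

/-- three circuits forming a theta -/
structure Theta (Z : Submodule F2 (α → F2)) (K z1 z2 : α → F2) : Prop where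
  cK : Circ Z K
  c1 : Circ Z z1
  c2 : Circ Z z2
  add : K + z1 = z2
  all : ∀ w ∈ Z, (∀ x, K x = 0 → z1 x = 0 → w x = 0) → w = 0 ∨ w = K ∨ w = z1 ∨ w = z2

theorem exists_theta {Z : Submodule F2 (α → F2)} {K L : α → F2} (hK : Circ Z K) (hL : Circ Z L)
    {x0 : α} (hKx : K x0 ≠ 0) (hLx : L x0 ≠ 0) {y : α} (hLy : L y ≠ 0) (hKy : K y = 0) :
    ∃ z1 z2, Theta Z K z1 z2 ∧ z1 y ≠ 0 ∧ (∀ x, K x = 0 → z1 x ≠ 0 → L x ≠ 0) := by
  classical
  have hL' : off (supp K) L ∈ Z.map (off (supp K)) := Submodule.mem_map_of_mem hL.1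
  have hy' : off (supp K) L y ≠ 0 := by
    rw [off_apply, if_neg]
    · exact hLy
    · rw [mem_supp]; simpa using hKy
  obtain ⟨J, hJ, hJy, hJL⟩ := exists_circ hL' hy'
  obtain ⟨z, hz, hzJ⟩ := Submodule.mem_map.1 hJ.1
  -- off z = J
  have hzJx : ∀ x, K x = 0 → z x = J x := by
    intro x hx
    rw [← hzJ, off_apply, if_neg]
    rw [mem_supp]; simpa using hx
  have hJK : ∀ x, K x ≠ 0 → J x = 0 := by
    intro x hx
    rw [← hzJ, off_apply, if_pos (mem_supp.2 hx)]
  have hzy : z y ≠ 0 := by rw [hzJx y hKy]; exact hJy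
  have hJL' : ∀ x, J x ≠ 0 → L x ≠ 0 := by
    intro x hx hLx
    apply hx
    apply hJL
    rw [off_apply]
    split
    · rfl
    · exact hLx
  have hall : ∀ w ∈ Z, (∀ x, K x = 0 → z x = 0 → w x = 0) →
      w = 0 ∨ w = K ∨ w = z ∨ w = K + z := by
    intro w hw hwx
    have h1 : off (supp K) w ∈ Z.map (off (supp K)) := Submodule.mem_map_of_mem hw
    have h2 : ∀ x, J x = 0 → off (supp K) w x = 0 := by
      intro x hx
      rw [off_apply]
      split
      · rfl
      · rename_i h
        have hKx : K x = 0 := by
          by_contra h'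
          exact h (mem_supp.2 h')
        exact hwx x hKx (by rw [hzJx x hKx, hx])
    have key : ∀ v ∈ Z, off (supp K) v = 0 → v = 0 ∨ v = K := by
      intro v hv h0
      apply hK.2.2 v hv
      intro x hx
      have := congrFun h0 x
      rw [off_apply, if_neg] at this
      · exact this
      · rw [mem_supp]; simpa using hx
    rcases hJ.2.2 _ h1 h2 with h | h
    · rcases key w hw h with h' | h'
      · exact Or.inl h'
      · exact Or.inr (Or.inl h')
    · have : off (supp K) (w + z) = 0 := by
        rw [map_add, h, hzJ]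
        exact vec_add_self J
      rcases key _ (Z.add_mem hw hz) this with h' | h'
      · right; right; left
        have : w = w + z + z := by rw [add_assoc, vec_add_self, add_zero]
        rw [this, h', zero_add]
      · right; right; right
        have : w = w + z + z := by rw [add_assoc, vec_add_self, add_zero]
        rw [this, h']
  have hnot : ∀ v ∈ Z, (∀ x, K x = 0 → v x = J x) → ¬ (∀ x, K x ≠ 0 → v x ≠ 0) := by
    intro v hv hvJ hsub
    have h1 : v + K ∈ Z := Z.add_mem hv hK.1
    have h2 : ∀ x, L x = 0 → (v + K) x = 0 := by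
      intro x hx
      rw [Pi.add_apply]
      by_cases hKx : K x = 0
      · rw [hKx, hvJ x hKx, add_zero]
        by_contra h
        exact hJL' x h hx
      · rw [f2_ne_zero.1 hKx, f2_ne_zero.1 (hsub x hKx)]
        decide
    rcases hL.2.2 _ h1 h2 with h | h
    · have := congrFun h y
      rw [Pi.add_apply, hKy, hvJ y hKy, add_zero] at this
      exact hJy this
    · apply hLx
      rw [← h, Pi.add_apply, f2_ne_zero.1 hKx, f2_ne_zero.1 (hsub x0 hKx)]
      decide
  have hcirc : ∀ v ∈ Z, (∀ x, K x = 0 → v x = J x) → (v = z ∨ v = K + z) → Circ Z v := by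
    intro v hv hvJ hvz
    refine ⟨hv, ?_, ?_⟩
    · rintro rfl
      exact hJy (hvJ y hKy).symm
    · intro w hw hwv
      have hw1 : ∀ x, K x = 0 → z x = 0 → w x = 0 := by
        intro x hx hzx
        apply hwv
        rw [hvJ x hx, ← hzJx x hx]
        exact hzx
      have hnot1 : w ≠ K := by
        intro h
        apply hnot v hv hvJ
        intro x hx hvx
        apply hx
        rw [← h]
        exact hwv x hvx
      have hnot2 : w ≠ v + K := by
        intro h
        apply hnot v hv hvJ
        intro x hx hvx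
        apply hx
        have := hwv x hvx
        rw [h, Pi.add_apply, hvx, zero_add] at this
        exact this
      rcases hall w hw hw1 with h | h | h | h
      · exact Or.inl h
      · exact absurd h hnot1
      · rcases hvz with h' | h'
        · right; rw [h, h']
        · exfalso
          apply hnot2
          rw [h, h', add_comm K z, add_assoc, vec_add_self, add_zero]
      · rcases hvz with h' | h'
        · exfalso
          apply hnot2
          rw [h, h', add_comm]
        · right; rw [h, h']
  refine ⟨z, K + z, ⟨hK, hcirc z hz hzJx (Or.inl rfl), hcirc (K + z) (Z.add_mem hK.1 hz) ?_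
    (Or.inr rfl), rfl, hall⟩, hzy, ?_⟩
  · intro x hx
    rw [Pi.add_apply, hx, zero_add, hzJx x hx]
  · intro x hx hzx
    apply hJL'
    rw [← hzJx x hx]
    exact hzx

/-- The colouring lemma: adjacent circuits of different colours cannot meet. -/
theorem color_disjoint {Z : Submodule F2 (α → F2)} {a b : (α → F2) → Prop}
    (h0 : ∀ K, Circ Z K → ¬ (a K ∧ b K))
    (h1 : ∀ K z1 z2, Theta Z K z1 z2 → a K → ¬ b z1 ∧ ¬ b z2)
    (h2 : ∀ K z1 z2, Theta Z K z1 z2 → a K → a z1 ∨ a z2)
    {K L : α → F2} (hK : Circ Z K) (hL : Circ Z L) (haK : a K) (hbL : b L) :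
    ∀ x, K x = 0 ∨ L x = 0 := by
  classical
  induction hn : (supp K ∪ supp L).card using Nat.strong_induction_on generalizing K with
  | _ n ih =>
    by_contra hcon
    push Not at hcon
    obtain ⟨x0, hKx, hLx⟩ := hcon
    have hne : ∃ y, L y ≠ 0 ∧ K y = 0 := by
      by_contra hcon
      push Not at hcon
      rcases hK.2.2 L hL.1 (fun x hx => by
        by_contra h
        exact hcon x h hx) with h | h
      · exact hL.2.1 h
      · subst h
        exact h0 _ hK ⟨haK, hbL⟩
    obtain ⟨y, hLy, hKy⟩ := hne
    obtain ⟨z1, z2, hT, hz1y, hz1L⟩ := exists_theta hK hL hKx hLx hLy hKy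
    have hz2 : ∀ x, z2 x = K x + z1 x := fun x => by rw [← hT.add]; rfl
    -- general step
    have step : ∀ v v' : α → F2, Circ Z v → a v → v y ≠ 0 → (∀ x, K x = 0 → v x ≠ 0 → L x ≠ 0) →
        (∀ x, v' x = K x + v x) → v' ∈ Z → (∀ w, w = v' → ¬ b w) → False := by
      intro v v' hv hav hvy hvL hv' hv'Z hnb
      have hlt : (supp v ∪ supp L).card < n := by
        rw [← hn]
        apply Finset.card_lt_card
        refine ⟨?_, ?_⟩
        · intro x hx
          rw [Finset.mem_union, mem_supp, mem_supp] at *
          rcases hx with hx | hx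
          · by_cases hKx : K x = 0
            · exact Or.inr (hvL x hKx hx)
            · exact Or.inl hKx
          · exact Or.inr hx
        · intro hsub
          -- then v' is supported in L
          have hv'L : ∀ x, L x = 0 → v' x = 0 := by
            intro x hx
            rw [hv']
            by_cases hKx : K x = 0
            · rw [hKx, zero_add]
              by_contra h
              exact hvL x hKx h hx
            · have : x ∈ supp v ∪ supp L := hsub (by
                rw [Finset.mem_union, mem_supp]; exact Or.inl hKx)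
              rw [Finset.mem_union, mem_supp, mem_supp] at this
              rcases this with h | h
              · rw [f2_ne_zero.1 hKx, f2_ne_zero.1 h]; decide
              · exact absurd hx h
          rcases hL.2.2 v' hv'Z hv'L with h | h
          · have := hv' y
            rw [h, hKy, zero_add] at this
            exact hvy this.symm
          · exact hnb L h.symm hbL
      have := ih _ hlt hv hav rfl y
      rcases this with h | h
      · exact hvy h
      · exact hLy h
    rcases h2 K z1 z2 hT haK with ha1 | ha2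
    · exact step z1 z2 hT.c1 ha1 hz1y hz1L hz2 hT.c2.1 (fun w hw => by
        rw [hw]; exact (h1 K z1 z2 hT haK).2)
    · refine step z2 z1 hT.c2 ha2 ?_ ?_ ?_ hT.c1.1 (fun w hw => by
        rw [hw]; exact (h1 K z1 z2 hT haK).1)
      · rw [hz2, hKy, zero_add]; exact hz1y
      · intro x hx hzx
        rw [hz2, hx, zero_add] at hzx
        exact hz1L x hx hzx
      · intro x
        rw [hz2, ← add_assoc, f2_add_self, zero_add]

/-- A circuit meeting an a-coloured circuit is covered by a-coloured circuits. -/
theorem color_cover {Z : Submodule F2 (α → F2)} {a : (α → F2) → Prop}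
    (h2 : ∀ K z1 z2, Theta Z K z1 z2 → a K → a z1 ∨ a z2)
    {K L : α → F2} (hK : Circ Z K) (hL : Circ Z L) (haK : a K) {x0 : α} (hKx : K x0 ≠ 0)
    (hLx : L x0 ≠ 0) : ∀ y, L y ≠ 0 → ∃ K', Circ Z K' ∧ a K' ∧ K' y ≠ 0 := by
  intro y hy
  by_cases hKy : K y = 0
  · obtain ⟨z1, z2, hT, hz1y, -⟩ := exists_theta hK hL hKx hLx hy hKy
    have hz2 : z2 y ≠ 0 := by
      rw [← hT.add, Pi.add_apply, hKy, zero_add]
      exact hz1y
    rcases h2 K z1 z2 hT haK with h | h
    · exact ⟨z1, hT.c1, h, hz1y⟩
    · exact ⟨z2, hT.c2, h, hz2⟩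
  · exact ⟨K, hK, haK, hKy⟩

/-- nullity of the union of two circuits in a theta -/
theorem theta_nul {Z : Submodule F2 (α → F2)} {K z1 z2 : α → F2} (hT : Theta Z K z1 z2) :
    nul Z (supp K ∪ supp z1) = 2 := by
  classical
  have hne : z1 ≠ K := by
    intro h
    apply hT.c2.2.1
    rw [← hT.add, h]
    exact vec_add_self K
  -- a point of z1 not in K
  have : ∃ y, z1 y ≠ 0 ∧ K y = 0 := by
    by_contra hcon
    push Not at hcon
    rcases hT.cK.2.2 z1 hT.c1.1 (fun x hx => by
      by_contra h
      exact hcon x h hx) with h | h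
    · exact hT.c1.2.1 h
    · exact hne h
  obtain ⟨y, hy1, hyK⟩ := this
  have h1 : nul Z ((supp K ∪ supp z1).erase y) + 1 = nul Z (supp K ∪ supp z1) := by
    apply nul_erase hT.c1.1 _ hy1
    intro x hx
    rw [Finset.mem_union, not_or] at hx
    by_contra h
    exact hx.2 (mem_supp.2 h)
  have h2 : nul Z ((supp K ∪ supp z1).erase y) = nul Z (supp K) := by
    apply le_antisymm
    · apply Submodule.finrank_mono
      intro w hw
      refine ⟨hw.1, ?_⟩
      have hwy : w y = 0 := hw.2 y (by simp)
      have hw' : ∀ x, K x = 0 → z1 x = 0 → w x = 0 := by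
        intro x hx hx'
        apply hw.2
        simp [mem_supp, hx, hx']
      rcases hT.all w hw.1 hw' with h | h | h | h
      · intro x _; rw [h]; rfl
      · intro x hx
        rw [h]
        by_contra h'
        exact hx (mem_supp.2 h')
      · rw [h] at hwy; exact absurd hwy hy1
      · rw [h, ← hT.add, Pi.add_apply, hyK, zero_add] at hwy; exact absurd hwy hy1
    · apply nul_mono
      intro x hx
      rw [Finset.mem_erase, Finset.mem_union]
      refine ⟨?_, Or.inl hx⟩
      rintro rfl
      exact (mem_supp.1 hx) hyK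
  have h3 := circ_nul hT.cK
  omega

end Basic

end Pool.Agent.Helper263.Recski
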