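import Pool.Agent.Helper263.RGraph

set_option autoImplicit false
set_option linter.unusedSectionVars false

namespace Pool.Agent.Helper263.Recski

open Finset

section Closure

variable {α : Type} [Fintype α] [DecidableEq α]
variable {β : Type} [Fintype β] [DecidableEq β]

/-- pull back along a map on a ground set `F` -/
def pb (p : β → α) (F : Finset β) : (α → F2) →ₗ[F2] (β → F2) where
  toFun z := fun f => if f ∈ F then z (p f) else 0
  map_add' := by
    intro a b
    funext x
    by_cases h : x ∈ F <;> simp [h]
  map_smul' := by
    intro c a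
    funext x
    by_cases h : x ∈ F <;> simp [h]

theorem pb_apply (p : β → α) (F : Finset β) (z : α → F2) (f : β) :
    pb p F z f = if f ∈ F then z (p f) else 0 := rfl

/-- `Z` on `E` is, after replacing each element by a series class, a union of the two
given matroids. -/
def HU (Y1 Y2 : Submodule F2 (β → F2)) (Z : Submodule F2 (α → F2)) (E : Finset α) : Prop :=
  ∃ (p : β → α) (F : Finset β), F.image p = E ∧ IsUnion (Z.map (pb p F)) Y1 Y2 F

/-- lifting along a partial map -/
def lift (τ : α → α) (D : Finset α) (z : α → F2) : α → F2 := fun x => if x ∈ D then z (τ x) else 0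

theorem pb_lift (p : β → α) (F : Finset β) (τ : α → α) (D : Finset α) (z : α → F2) :
    pb p F (lift τ D z) = pb (τ ∘ p) (F.filter (fun f => p f ∈ D)) z := by
  funext f
  simp only [pb_apply, lift, Finset.mem_filter, Function.comp_apply]
  by_cases h1 : f ∈ F <;> by_cases h2 : p f ∈ D <;> simp [h1, h2]

theorem HU.closure {Y1 Y2 : Submodule F2 (β → F2)} {Z Z' : Submodule F2 (α → F2)}
    {E D : Finset α} {τ : α → α} (hZ : Z ≤ supIn E) (hD : D ⊆ E) (h : HU Y1 Y2 Z E)
    (h1 : ∀ z' ∈ Z', lift τ D z' ∈ Z)
    (h2 : ∀ z ∈ Z, (∀ x ∉ D, z x = 0) → ∃ z' ∈ Z', z = lift τ D z') :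
    HU Y1 Y2 Z' (D.image τ) := by
  obtain ⟨p, F, hF, hU⟩ := h
  refine ⟨τ ∘ p, F.filter (fun f => p f ∈ D), ?_, ?_⟩
  · ext y
    simp only [Finset.mem_image, Finset.mem_filter, Function.comp_apply]
    constructor
    · rintro ⟨f, ⟨-, hf⟩, rfl⟩
      exact ⟨p f, hf, rfl⟩
    · rintro ⟨x, hx, rfl⟩
      have : x ∈ F.image p := by rw [hF]; exact hD hx
      obtain ⟨f, hf, rfl⟩ := Finset.mem_image.1 this
      exact ⟨f, ⟨hf, hx⟩, rfl⟩
  · intro I hI
    rw [← hU I (hI.trans (Finset.filter_subset _ _))]
    constructor
    · intro hInd c hc hcI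
      obtain ⟨z, hz, rfl⟩ := Submodule.mem_map.1 hc
      have hzD : ∀ x ∉ D, z x = 0 := by
        intro x hx
        by_cases hxE : x ∈ E
        · rw [← hF] at hxE
          obtain ⟨f, hf, rfl⟩ := Finset.mem_image.1 hxE
          have := hcI f (fun h => hx (Finset.mem_filter.1 (hI h)).2)
          rw [pb_apply, if_pos hf] at this
          exact this
        · exact hZ hz x hxE
      obtain ⟨z', hz', rfl⟩ := h2 z hz hzD
      rw [pb_lift] at hcI ⊢
      exact hInd _ (Submodule.mem_map_of_mem hz') hcI
    · intro hInd c hc hcI
      obtain ⟨z', hz', rfl⟩ := Submodule.mem_map.1 hc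
      rw [← pb_lift] at hcI ⊢
      exact hInd _ (Submodule.mem_map_of_mem (h1 z' hz')) hcI

theorem HU.restrict {Y1 Y2 : Submodule F2 (β → F2)} {Z : Submodule F2 (α → F2)}
    {E D : Finset α} (hZ : Z ≤ supIn E) (hD : D ⊆ E) (h : HU Y1 Y2 Z E) :
    HU Y1 Y2 (restr Z D) D := by
  have hl : ∀ z : α → F2, (∀ x ∉ D, z x = 0) → lift id D z = z := by
    intro z hz
    funext x
    simp only [lift, id]
    split
    · rfl
    · rename_i hx; exact (hz x hx).symm
  have := HU.closure (τ := id) (Z' := restr Z D) hZ hD h (fun z' hz' => by
    rw [hl z' hz'.2]; exact hz'.1) (fun z hz hzD => ⟨z, ⟨hz, hzD⟩, (hl z hzD).symm⟩)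
  rwa [Finset.image_id] at this

/-- No separation of order one. -/
def Conn (Z : Submodule F2 (α → F2)) (E : Finset α) : Prop :=
  ∀ A B, A ∪ B = E → Disjoint A B → A.Nonempty → B.Nonempty → ∃ z ∈ Z, cut A z ∉ Z

/-- No separation of order two with both sides of size at least two. -/
def Conn3 (Z : Submodule F2 (α → F2)) (E : Finset α) : Prop :=
  ∀ A B, A ∪ B = E → Disjoint A B → 2 ≤ A.card → 2 ≤ B.card →
    ∀ c ∈ Z, ∃ z ∈ Z, cut A z ∉ Z ∧ cut A (z + c) ∉ Z

/-- No series pair. -/
def NoSeries (Z : Submodule F2 (α → F2)) (E : Finset α) : Prop :=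
  ∀ x ∈ E, ∀ y ∈ E, x ≠ y → ∃ z ∈ Z, z x ≠ z y

theorem cut_other {A B : Finset α} {v : α → F2} (h : cut A v + cut B v = v) :
    cut B v = v + cut A v := by
  calc cut B v = cut A v + cut B v + cut A v := by
        rw [add_comm (cut A v), add_assoc, vec_add_self, add_zero]
    _ = v + cut A v := by rw [h]

/-- one side of a 2-separation -/
theorem two_sep_part {Y1 Y2 : Submodule F2 (β → F2)} {Z : Submodule F2 (α → F2)}
    {E A B : Finset α} (hZ : Z ≤ supIn E) (hE : A ∪ B = E) (hd : Disjoint A B)
    (h : HU Y1 Y2 Z E) {C : α → F2} (hC : Circ Z C) (hCA : cut A C ∉ Z)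
    (hsep : ∀ z ∈ Z, cut A z ∈ Z ∨ cut A (z + C) ∈ Z) {b : α} (hb : b ∈ B) (hCb : C b ≠ 0) :
    ∃ ZA : Submodule F2 (α → F2), ZA ≤ supIn (insert b A) ∧ HU Y1 Y2 ZA (insert b A) ∧
      one b ∉ ZA ∧
      ∀ (z : α → F2) (ε : F2), cut A z + ε • one b ∈ ZA ↔ cut A z + ε • cut B C ∈ Z := by
  classical
  have hbA : b ∉ A := Finset.disjoint_right.1 hd hb
  have hCcut : cut A C + cut B C = C := cut_add_cut hd (by rw [hE]; exact hZ hC.1)
  have hCB : cut B C ∉ Z := by
    intro h
    apply hCA
    have : cut A C = C + cut B C := by
      nth_rewrite 2 [← hCcut]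
      rw [add_assoc, vec_add_self, add_zero]
    rw [this]
    exact Z.add_mem hC.1 h
  -- the lifting map
  let L : (α → F2) →ₗ[F2] (α → F2) := cut A + (LinearMap.toSpanSingleton F2 (α → F2) (cut B C)).comp
    (LinearMap.proj b)
  have hL : ∀ z, L z = cut A z + z b • cut B C := by
    intro z
    simp [L]
  refine ⟨supIn (insert b A) ⊓ Z.comap L, inf_le_left, ?_, ?_, ?_⟩
  · -- closure with D = A ∪ (supp C ∩ B)
    set D : Finset α := A ∪ (supp C ∩ B) with hDdef
    have hD : D ⊆ E := by
      rw [← hE]
      exact Finset.union_subset_union_right Finset.inter_subset_right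
    set τ : α → α := fun x => if x ∈ A then x else b with hτ
    have himg : D.image τ = insert b A := by
      ext y
      simp only [Finset.mem_image, Finset.mem_insert, hDdef, Finset.mem_union, Finset.mem_inter, hτ]
      constructor
      · rintro ⟨x, hx, rfl⟩
        by_cases hxA : x ∈ A
        · simp [hxA]
        · simp [hxA]
      · rintro (rfl | h)
        · exact ⟨y, Or.inr ⟨mem_supp.2 hCb, hb⟩, by simp⟩
        · exact ⟨y, Or.inl h, by simp [h]⟩
    have hlift : ∀ z, lift τ D z = L z := by
      intro z
      rw [hL]
      funext x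
      simp only [lift, hDdef, Finset.mem_union, Finset.mem_inter, mem_supp, hτ, Pi.add_apply,
        Pi.smul_apply, cut_apply, smul_eq_mul]
      by_cases hxA : x ∈ A
      · have hxB : x ∉ B := Finset.disjoint_left.1 hd hxA
        simp [hxA, hxB]
      · by_cases hxB : x ∈ B
        · by_cases hCx : C x = 0
          · simp [hxA, hxB, hCx]
          · simp [hxA, hxB, f2_ne_zero.1 hCx]
        · simp [hxA, hxB]
    rw [← himg]
    refine HU.closure hZ hD h ?_ ?_
    · intro z' hz'
      rw [hlift]
      exact hz'.2
    · intro z hz hzD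
      -- z restricted to B is z b • C restricted to B
      have hzcut : cut A z + cut B z = z := cut_add_cut hd (by rw [hE]; exact hZ hz)
      have hsmall : ∀ v ∈ Z, (∀ x ∉ D, v x = 0) → cut B v ∈ Z → cut B v = 0 := by
        intro v hv hvD hvB
        rcases hC.2.2 _ hvB (by
          intro x hx
          rw [cut_apply]
          split
          · rename_i hxB
            apply hvD
            rw [hDdef, Finset.mem_union, Finset.mem_inter, mem_supp]
            rintro (h | h)
            · exact Finset.disjoint_left.1 hd h hxB
            · exact h.1 hx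
          · rfl) with h | h
        · exact h
        · exfalso
          apply hCA
          have : cut A C = 0 := by
            rw [← h]
            funext x
            rw [cut_apply, cut_apply]
            by_cases hxA : x ∈ A
            · rw [if_pos hxA, if_neg (Finset.disjoint_left.1 hd hxA)]; rfl
            · rw [if_neg hxA]; rfl
          rw [this]
          exact Z.zero_mem
      have hCD : ∀ x ∉ D, C x = 0 := by
        intro x hx
        by_contra hCx
        apply hx
        rw [hDdef, Finset.mem_union, Finset.mem_inter, mem_supp]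
        have : x ∈ A ∪ B := by
          rw [hE]
          by_contra hxE
          exact hCx (hZ hC.1 x hxE)
        rcases Finset.mem_union.1 this with h | h
        · exact Or.inl h
        · exact Or.inr ⟨hCx, h⟩
      have hzB : cut B z = z b • cut B C := by
        rcases hsep z hz with h1 | h1
        · have h2 : cut B z ∈ Z := by
            rw [cut_other hzcut]
            exact Z.add_mem hz h1
          have h3 := hsmall z hz hzD h2
          have h4 : z b = 0 := by
            have := congrFun h3 b
            rw [cut_apply, if_pos hb] at this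
            exact this
          rw [h3, h4, zero_smul]
        · have hzC : z + C ∈ Z := Z.add_mem hz hC.1
          have hzCcut : cut A (z + C) + cut B (z + C) = z + C :=
            cut_add_cut hd (by rw [hE]; exact hZ hzC)
          have h2 : cut B (z + C) ∈ Z := by
            rw [cut_other hzCcut]
            exact Z.add_mem hzC h1
          have h3 := hsmall (z + C) hzC (fun x hx => by
            rw [Pi.add_apply, hzD x hx, hCD x hx, add_zero]) h2
          rw [map_add] at h3
          have h5 : cut B z = cut B C := by
            calc cut B z = (cut B z + cut B C) + cut B C := by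
                  rw [add_assoc, vec_add_self, add_zero]
              _ = cut B C := by rw [h3, zero_add]
          have h4 : z b = 1 := by
            have := congrFun h5 b
            rw [cut_apply, cut_apply, if_pos hb, if_pos hb] at this
            rw [this]
            exact f2_ne_zero.1 hCb
          rw [h5, h4, one_smul]
      set z' := cut A z + z b • one b with hz'
      have hz'b : z' b = z b := by
        simp [hz', cut_apply, hbA, one_apply]
      have hcutz' : cut A z' = cut A z := by
        funext x
        rw [cut_apply, cut_apply]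
        by_cases hxA : x ∈ A
        · have hxb : x ≠ b := by rintro rfl; exact hbA hxA
          simp [hz', cut_apply, hxA, one_apply, hxb]
        · rw [if_neg hxA, if_neg hxA]
      have hLz' : L z' = z := by
        rw [hL, hcutz', hz'b, ← hzB, hzcut]
      refine ⟨z', ⟨?_, ?_⟩, ?_⟩
      · intro x hx
        rw [himg, Finset.mem_insert, not_or] at hx
        simp [hz', cut_apply, hx.2, one_apply, hx.1]
      · change L z' ∈ Z
        rw [hLz']; exact hz
      · rw [hlift, hLz']
  · rintro ⟨-, h⟩
    change L (one b) ∈ Z at h
    rw [hL] at h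
    have h1 : cut A (one b) = 0 := by
      funext x
      rw [cut_apply]
      by_cases hxA : x ∈ A
      · have hxb : x ≠ b := by rintro rfl; exact hbA hxA
        simp [one_apply, hxb]
      · rw [if_neg hxA]; rfl
    rw [h1, zero_add, one_apply, if_pos rfl, one_smul] at h
    exact hCB h
  · intro z ε
    have hcut2 : cut A (cut A z + ε • one b) = cut A z := by
      funext x
      rw [cut_apply]
      by_cases hxA : x ∈ A
      · have hxb : x ≠ b := by rintro rfl; exact hbA hxA
        simp [cut_apply, hxA, one_apply, hxb]
      · rw [if_neg hxA, cut_apply, if_neg hxA]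
    have hb2 : (cut A z + ε • one b) b = ε := by
      simp [cut_apply, hbA, one_apply]
    constructor
    · rintro ⟨-, h⟩
      change L _ ∈ Z at h
      rw [hL, hcut2, hb2] at h
      exact h
    · intro h
      refine ⟨?_, ?_⟩
      · intro x hx
        rw [Finset.mem_insert, not_or] at hx
        simp [cut_apply, hx.2, one_apply, hx.1]
      · change L _ ∈ Z
        rw [hL, hcut2, hb2]
        exact h

end Closure

end Pool.Agent.Helper263.Recski
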