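import Pool.Agent.Helper263.RUnion

set_option autoImplicit false
set_option linter.unusedSectionVars false

namespace Pool.Agent.Helper263.Recski

open Finset

section Graph

variable {α : Type} [Fintype α] [DecidableEq α]

/-- keep the coordinates in `A` -/
def cut (A : Finset α) : (α → F2) →ₗ[F2] (α → F2) where
  toFun z := fun x => if x ∈ A then z x else 0
  map_add' := by
    intro a b
    funext x
    by_cases h : x ∈ A <;> simp [h]
  map_smul' := by
    intro c a
    funext x
    by_cases h : x ∈ A <;> simp [h]

theorem cut_apply (A : Finset α) (z : α → F2) (x : α) :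
    cut A z x = if x ∈ A then z x else 0 := rfl

theorem cut_of_sup {A : Finset α} {z : α → F2} (h : ∀ x ∉ A, z x = 0) : cut A z = z := by
  funext x
  rw [cut_apply]
  split
  · rfl
  · rename_i hx; exact (h x hx).symm

/-- the boundary map of a graph -/
noncomputable def bd {V : Type} (u w : α → V) : (α → F2) →ₗ[F2] (V →₀ F2) :=
  Fintype.linearCombination F2 (fun x => Finsupp.single (u x) (1 : F2) + Finsupp.single (w x) 1)

theorem bd_apply {V : Type} (u w : α → V) (z : α → F2) :
    bd u w z = ∑ x, z x • (Finsupp.single (u x) (1 : F2) + Finsupp.single (w x) 1) := rfl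

def Graphic (Z : Submodule F2 (α → F2)) (E : Finset α) : Prop :=
  ∃ (V : Type) (u w : α → V), ∀ z, z ∈ Z ↔ (∀ x ∉ E, z x = 0) ∧ bd u w z = 0

theorem graphic_small (Z : Submodule F2 (α → F2)) (E : Finset α) (hZ : Z ≤ supIn E)
    (hE : E.card ≤ 1) : Graphic Z E := by
  classical
  by_cases h : ∀ z, (∀ x ∉ E, z x = 0) → z ∈ Z
  · refine ⟨Unit, fun _ => (), fun _ => (), fun z => ⟨fun hz => ⟨hZ hz, ?_⟩, fun hz => h z hz.1⟩⟩
    rw [bd_apply]
    apply Finset.sum_eq_zero
    intro x _
    have : Finsupp.single () (1 : F2) + Finsupp.single () 1 = 0 := by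
      rw [← Finsupp.single_add]
      have : (1 : F2) + 1 = 0 := by decide
      rw [this, Finsupp.single_zero]
    rw [this, smul_zero]
  · push Not at h
    obtain ⟨z0, hz0, hz0Z⟩ := h
    have hz00 : z0 ≠ 0 := by
      rintro rfl
      exact hz0Z Z.zero_mem
    obtain ⟨e, he⟩ := Function.ne_iff.1 hz00
    have heE : e ∈ E := by
      by_contra h
      exact he (hz0 e h)
    have hEe : E = {e} := by
      rw [Finset.eq_singleton_iff_unique_mem]
      exact ⟨heE, fun x hx => Finset.card_le_one.1 hE x hx e heE⟩
    have hall : ∀ z : α → F2, (∀ x ∉ E, z x = 0) → z = 0 ∨ z = z0 := by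
      intro z hz
      rcases f2_cases (z e) with h | h
      · left
        funext x
        by_cases hx : x = e
        · subst hx; exact h
        · exact hz x (by rw [hEe]; simpa using hx)
      · right
        funext x
        by_cases hx : x = e
        · subst hx; rw [h, f2_ne_zero.1 he]
        · rw [hz x (by rw [hEe]; simpa using hx), hz0 x (by rw [hEe]; simpa using hx)]
    refine ⟨Bool, fun _ => true, fun _ => false, fun z => ⟨fun hz => ⟨hZ hz, ?_⟩, ?_⟩⟩
    · rcases hall z (hZ hz) with h | h
      · rw [h, map_zero]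
      · rw [h] at hz; exact absurd hz hz0Z
    · rintro ⟨hz, hb⟩
      rcases hall z hz with h | h
      · rw [h]; exact Z.zero_mem
      · exfalso
        rw [h, bd_apply] at hb
        rw [Finset.sum_eq_single e] at hb
        · have := DFunLike.congr_fun hb true
          simp at this
          exact he this
        · intro x _ hx
          rw [hz0 x (by rw [hEe]; simpa using hx), zero_smul]
        · simp

/-- gluing formula for the boundary -/
theorem bd_glue {V VA VB : Type} (A : Finset α) (psi : VA → V) (phi : VB → V)
    (uA wA : α → VA) (uB wB : α → VB) (z : α → F2) :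
    bd (fun x => if x ∈ A then psi (uA x) else phi (uB x))
      (fun x => if x ∈ A then psi (wA x) else phi (wB x)) z =
    Finsupp.lmapDomain F2 F2 psi (bd uA wA (cut A z)) +
      Finsupp.lmapDomain F2 F2 phi (bd uB wB (off A z)) := by
  rw [bd_apply, bd_apply, bd_apply, map_sum, map_sum, ← Finset.sum_add_distrib]
  apply Finset.sum_congr rfl
  intro x _
  rw [map_smul, map_smul, map_add, map_add]
  simp only [Finsupp.lmapDomain_apply, Finsupp.mapDomain_single, cut_apply, off_apply]
  by_cases hx : x ∈ A
  · simp [hx]
  · simp [hx]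

theorem off_eq_cut {A B : Finset α} {z : α → F2} (hd : Disjoint A B)
    (hz : ∀ x ∉ A ∪ B, z x = 0) : off A z = cut B z := by
  funext x
  rw [off_apply, cut_apply]
  by_cases hA : x ∈ A
  · rw [if_pos hA, if_neg (Finset.disjoint_left.1 hd hA)]
  · rw [if_neg hA]
    by_cases hB : x ∈ B
    · rw [if_pos hB]
    · rw [if_neg hB]
      exact hz x (by simp [hA, hB])

theorem cut_add_cut {A B : Finset α} {z : α → F2} (hd : Disjoint A B)
    (hz : ∀ x ∉ A ∪ B, z x = 0) : cut A z + cut B z = z := by
  funext x
  rw [Pi.add_apply, cut_apply, cut_apply]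
  by_cases hA : x ∈ A
  · rw [if_pos hA, if_neg (Finset.disjoint_left.1 hd hA), add_zero]
  · rw [if_neg hA, zero_add]
    by_cases hB : x ∈ B
    · rw [if_pos hB]
    · rw [if_neg hB]
      exact (hz x (by simp [hA, hB])).symm

theorem lmap_inj {V W : Type} (f : V → W) (hf : Function.Injective f) {p : V →₀ F2}
    (h : Finsupp.lmapDomain F2 F2 f p = 0) : p = 0 := by
  rw [Finsupp.lmapDomain_apply] at h
  apply Finsupp.mapDomain_injective hf
  rw [h, Finsupp.mapDomain_zero]

theorem lmap_notin {V W : Type} (f : V → W) (p : V →₀ F2) (y : W) (h : y ∉ Set.range f) :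
    Finsupp.lmapDomain F2 F2 f p y = 0 := by
  rw [Finsupp.lmapDomain_apply]
  exact Finsupp.mapDomain_of_notMem_range p y h

theorem graphic_disj {Z : Submodule F2 (α → F2)} {E A B : Finset α} (hZ : Z ≤ supIn E)
    (hE : A ∪ B = E) (hd : Disjoint A B) (hcut : ∀ z ∈ Z, cut A z ∈ Z)
    (hA : Graphic (restr Z A) A) (hB : Graphic (restr Z B) B) : Graphic Z E := by
  classical
  obtain ⟨VA, uA, wA, hA⟩ := hA
  obtain ⟨VB, uB, wB, hB⟩ := hB
  refine ⟨VA ⊕ VB, fun x => if x ∈ A then Sum.inl (uA x) else Sum.inr (uB x),
    fun x => if x ∈ A then Sum.inl (wA x) else Sum.inr (wB x), fun z => ?_⟩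
  have hcutA : ∀ x ∉ A, cut A z x = 0 := fun x hx => by rw [cut_apply, if_neg hx]
  have hcutB : ∀ x ∉ B, cut B z x = 0 := fun x hx => by rw [cut_apply, if_neg hx]
  rw [bd_glue]
  constructor
  · intro hz
    refine ⟨hZ hz, ?_⟩
    have hzE : ∀ x ∉ A ∪ B, z x = 0 := by rw [hE]; exact hZ hz
    have h1 : cut A z ∈ Z := hcut z hz
    have h2 : cut B z ∈ Z := by
      have : cut B z = cut A z + z := by
        nth_rewrite 3 [← cut_add_cut hd hzE]
        rw [vec_add_cancel]
      rw [this]
      exact Z.add_mem h1 hz
    rw [off_eq_cut hd hzE, ((hA _).1 ⟨h1, hcutA⟩).2, ((hB _).1 ⟨h2, hcutB⟩).2]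
    simp
  · rintro ⟨hzE, hb⟩
    rw [← hE] at hzE
    rw [off_eq_cut hd hzE] at hb
    have hbA : bd uA wA (cut A z) = 0 := by
      ext v
      have := DFunLike.congr_fun hb (Sum.inl v)
      rw [Finsupp.add_apply, lmap_notin Sum.inr _ _ (by simp), add_zero,
        Finsupp.lmapDomain_apply, Finsupp.mapDomain_apply Sum.inl_injective] at this
      exact this
    have hbB : bd uB wB (cut B z) = 0 := by
      ext v
      have := DFunLike.congr_fun hb (Sum.inr v)
      rw [Finsupp.add_apply, lmap_notin Sum.inl _ _ (by simp), zero_add,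
        Finsupp.lmapDomain_apply, Finsupp.mapDomain_apply Sum.inr_injective] at this
      exact this
    rw [← cut_add_cut hd hzE]
    exact Z.add_mem ((hA _).2 ⟨hcutA, hbA⟩).1 ((hB _).2 ⟨hcutB, hbB⟩).1

/-- the unit vector -/
def one (x : α) : α → F2 := fun y => if y = x then 1 else 0

theorem one_apply (x y : α) : one x y = if y = x then 1 else 0 := rfl

theorem bd_one {V : Type} (u w : α → V) (x : α) :
    bd u w (one x) = Finsupp.single (u x) (1 : F2) + Finsupp.single (w x) 1 := by
  rw [bd_apply, Finset.sum_eq_single x]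
  · simp [one_apply]
  · intro y _ hy
    simp [one_apply, hy]
  · simp

/-- total parity of a boundary vanishes -/
theorem bd_total {V : Type} (u w : α → V) (z : α → F2) :
    Finsupp.linearCombination F2 (fun _ : V => (1 : F2)) (bd u w z) = 0 := by
  rw [bd_apply, map_sum]
  apply Finset.sum_eq_zero
  intro x _
  rw [map_smul, map_add, Finsupp.linearCombination_single, Finsupp.linearCombination_single]
  have : (1 : F2) • (1 : F2) + (1 : F2) • (1 : F2) = 0 := by decide
  rw [this, smul_zero]

/-- gluing two graphs along a marker edge -/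
theorem graphic_two_sum {Z ZA ZB : Submodule F2 (α → F2)} {E A B : Finset α} {a b : α}
    (hE : A ∪ B = E) (hd : Disjoint A B) (ha : a ∈ A) (hb : b ∈ B)
    (hA : Graphic ZA (insert b A)) (hB : Graphic ZB (insert a B))
    (hnA : one b ∉ ZA) (hnB : one a ∉ ZB)
    (hZ : ∀ z, z ∈ Z ↔ (∀ x ∉ E, z x = 0) ∧
      ∃ ε : F2, cut A z + ε • one b ∈ ZA ∧ cut B z + ε • one a ∈ ZB) : Graphic Z E := by
  classical
  obtain ⟨VA, uA, wA, hA⟩ := hA
  obtain ⟨VB, uB, wB, hB⟩ := hB
  have hbA : b ∉ A := Finset.disjoint_right.1 hd hb
  have haB : a ∉ B := Finset.disjoint_left.1 hd ha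
  have hloopA : uA b ≠ wA b := by
    intro h
    apply hnA
    rw [hA]
    refine ⟨fun x hx => ?_, ?_⟩
    · rw [one_apply, if_neg]
      rintro rfl
      exact hx (Finset.mem_insert_self _ _)
    · rw [bd_one, h, ← Finsupp.single_add]
      have : (1 : F2) + 1 = 0 := by decide
      rw [this, Finsupp.single_zero]
  have hloopB : uB a ≠ wB a := by
    intro h
    apply hnB
    rw [hB]
    refine ⟨fun x hx => ?_, ?_⟩
    · rw [one_apply, if_neg]
      rintro rfl
      exact hx (Finset.mem_insert_self _ _)
    · rw [bd_one, h, ← Finsupp.single_add]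
      have : (1 : F2) + 1 = 0 := by decide
      rw [this, Finsupp.single_zero]
  set phi : VB → VA ⊕ VB := fun v => if v = uB a then Sum.inl (uA b) else
    if v = wB a then Sum.inl (wA b) else Sum.inr v with hphi
  have hphi1 : phi (uB a) = Sum.inl (uA b) := by simp [hphi]
  have hphi2 : phi (wB a) = Sum.inl (wA b) := by simp [hphi, hloopB.symm]
  refine ⟨VA ⊕ VB, fun x => if x ∈ A then Sum.inl (uA x) else phi (uB x),
    fun x => if x ∈ A then Sum.inl (wA x) else phi (wB x), fun z => ?_⟩
  rw [bd_glue, hZ]
  have hcutA : ∀ x ∉ A, cut A z x = 0 := fun x hx => by rw [cut_apply, if_neg hx]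
  have hcutB : ∀ x ∉ B, cut B z x = 0 := fun x hx => by rw [cut_apply, if_neg hx]
  have hAiff : ∀ ε : F2, cut A z + ε • one b ∈ ZA ↔
      bd uA wA (cut A z) = ε • (Finsupp.single (uA b) (1 : F2) + Finsupp.single (wA b) 1) := by
    intro ε
    rw [hA, map_add, map_smul, bd_one]
    constructor
    · rintro ⟨-, h⟩
      have : bd uA wA (cut A z) = bd uA wA (cut A z) +
        (ε • (Finsupp.single (uA b) (1 : F2) + Finsupp.single (wA b) 1) +
          ε • (Finsupp.single (uA b) (1 : F2) + Finsupp.single (wA b) 1)) := by
        rw [← add_smul, f2_add_self, zero_smul, add_zero]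
      rw [this, ← add_assoc, h, zero_add]
    · intro h
      refine ⟨fun x hx => ?_, ?_⟩
      · rw [Finset.mem_insert, not_or] at hx
        simp [hcutA x hx.2, one_apply, hx.1]
      · rw [h, ← add_smul, f2_add_self, zero_smul]
  have hBiff : ∀ ε : F2, cut B z + ε • one a ∈ ZB ↔
      bd uB wB (cut B z) = ε • (Finsupp.single (uB a) (1 : F2) + Finsupp.single (wB a) 1) := by
    intro ε
    rw [hB, map_add, map_smul, bd_one]
    constructor
    · rintro ⟨-, h⟩
      have : bd uB wB (cut B z) = bd uB wB (cut B z) +
        (ε • (Finsupp.single (uB a) (1 : F2) + Finsupp.single (wB a) 1) +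
          ε • (Finsupp.single (uB a) (1 : F2) + Finsupp.single (wB a) 1)) := by
        rw [← add_smul, f2_add_self, zero_smul, add_zero]
      rw [this, ← add_assoc, h, zero_add]
    · intro h
      refine ⟨fun x hx => ?_, ?_⟩
      · rw [Finset.mem_insert, not_or] at hx
        simp [hcutB x hx.2, one_apply, hx.1]
      · rw [h, ← add_smul, f2_add_self, zero_smul]
  have himg : ∀ ε : F2, Finsupp.lmapDomain F2 F2 phi
      (ε • (Finsupp.single (uB a) (1 : F2) + Finsupp.single (wB a) 1)) =
      Finsupp.lmapDomain F2 F2 (Sum.inl : VA → VA ⊕ VB)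
      (ε • (Finsupp.single (uA b) (1 : F2) + Finsupp.single (wA b) 1)) := by
    intro ε
    rw [map_smul, map_smul, map_add, map_add]
    simp only [Finsupp.lmapDomain_apply, Finsupp.mapDomain_single, hphi1, hphi2]
  constructor
  · rintro ⟨hzE, ε, h1, h2⟩
    refine ⟨hzE, ?_⟩
    rw [← hE] at hzE
    rw [off_eq_cut hd hzE, (hAiff ε).1 h1, (hBiff ε).1 h2, himg]
    ext v
    rw [Finsupp.add_apply, f2_add_self]; rfl
  · rintro ⟨hzE, hb0⟩
    refine ⟨hzE, ?_⟩
    rw [← hE] at hzE
    rw [off_eq_cut hd hzE] at hb0
    set q := bd uB wB (cut B z) with hq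
    set p := bd uA wA (cut A z) with hp
    -- q vanishes away from the two ends of a
    have hq0 : ∀ v, v ≠ uB a → v ≠ wB a → q v = 0 := by
      intro v hv1 hv2
      have h1 := DFunLike.congr_fun hb0 (Sum.inr v)
      rw [Finsupp.add_apply, lmap_notin Sum.inl _ _ (by simp), zero_add,
        Finsupp.lmapDomain_apply] at h1
      have h2 : Finsupp.mapDomain phi q (Sum.inr v) = q v := by
        rw [Finsupp.mapDomain, Finsupp.sum_apply, Finsupp.sum]
        rw [Finset.sum_eq_single v]
        · simp [hphi, hv1, hv2]
        · intro v' _ hv'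
          rw [Finsupp.single_apply, if_neg]
          intro h
          simp only [hphi] at h
          split at h
          · simp at h
          · split at h
            · simp at h
            · exact hv' (Sum.inr_injective h)
        · intro h
          rw [Finsupp.notMem_support_iff.1 h]
          simp
      rw [← h2, h1]; rfl
    have hqform : q = (q (uB a)) • Finsupp.single (uB a) (1 : F2) +
        (q (wB a)) • Finsupp.single (wB a) 1 := by
      ext v
      simp only [Finsupp.add_apply, Finsupp.smul_apply, Finsupp.single_apply, smul_eq_mul]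
      by_cases h1 : uB a = v
      · subst h1
        simp [hloopB.symm]
      · by_cases h2 : wB a = v
        · subst h2
          simp [h1]
        · rw [hq0 v (Ne.symm h1) (Ne.symm h2)]
          simp [h1, h2]
    have htot := bd_total uB wB (cut B z)
    rw [← hq, hqform, map_add, map_smul, map_smul, Finsupp.linearCombination_single,
      Finsupp.linearCombination_single] at htot
    simp only [smul_eq_mul, mul_one] at htot
    have heq : q (wB a) = q (uB a) := by
      revert htot
      generalize q (wB a) = s
      generalize q (uB a) = t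
      revert s t
      decide
    have hqf : q = (q (uB a)) • (Finsupp.single (uB a) (1 : F2) + Finsupp.single (wB a) 1) := by
      rw [smul_add]
      nth_rewrite 1 [hqform]
      rw [heq]
    refine ⟨q (uB a), (hAiff _).2 ?_, (hBiff _).2 hqf⟩
    rw [hqf, himg, ← map_add] at hb0
    have := lmap_inj _ Sum.inl_injective hb0
    have h2 : p = p + ((q (uB a)) • (Finsupp.single (uA b) (1 : F2) + Finsupp.single (wA b) 1) +
          (q (uB a)) • (Finsupp.single (uA b) (1 : F2) + Finsupp.single (wA b) 1)) := by
      rw [← add_smul, f2_add_self, zero_smul, add_zero]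
    rw [h2, ← add_assoc, this, zero_add]

/-- subdividing an edge -/
theorem graphic_series {Z Z' : Submodule F2 (α → F2)} {E : Finset α} {x y : α}
    (hxE : x ∈ E) (hxy : x ≠ y) (hyE : y ∈ E)
    (hG : Graphic Z' (E.erase y))
    (hZ : ∀ z, z ∈ Z ↔ z x = z y ∧ off {y} z ∈ Z') : Graphic Z E := by
  classical
  obtain ⟨V, u, w, hG⟩ := hG
  refine ⟨Option V, fun t => if t = y then none else some (u t),
    fun t => if t = y then some (w x) else if t = x then none else some (w t), fun z => ?_⟩
  rw [hZ, hG]
  have key : bd (fun t => if t = y then none else some (u t))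
      (fun t => if t = y then some (w x) else if t = x then none else some (w t)) z =
      Finsupp.lmapDomain F2 F2 some (bd u w (off {y} z)) +
      (z x + z y) • (Finsupp.single none (1 : F2) + Finsupp.single (some (w x)) 1) := by
    rw [bd_apply, bd_apply, map_sum]
    have h2 : (z x + z y) • (Finsupp.single none (1 : F2) + Finsupp.single (some (w x)) 1) =
      ∑ t, ((if t = x then z x • (Finsupp.single none (1 : F2) + Finsupp.single (some (w x)) 1)
        else 0) + (if t = y then z y •
          (Finsupp.single none (1 : F2) + Finsupp.single (some (w x)) 1) else 0)) := by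
      rw [Finset.sum_add_distrib, Finset.sum_ite_eq', Finset.sum_ite_eq', if_pos (Finset.mem_univ _),
        if_pos (Finset.mem_univ _), add_smul]
    rw [h2, ← Finset.sum_add_distrib]
    apply Finset.sum_congr rfl
    intro t _
    rw [map_smul, map_add]
    simp only [Finsupp.lmapDomain_apply, Finsupp.mapDomain_single, off_apply,
      Finset.mem_singleton]
    by_cases hty : t = y
    · subst hty
      simp [hxy.symm]
    · by_cases htx : t = x
      · subst htx
        simp only [if_neg hty, if_true, add_zero, if_neg hxy]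
        rw [← smul_add]
        congr 1
        have h3 : Finsupp.single (some (w t)) (1 : F2) + Finsupp.single (some (w t)) 1 = 0 := by
          rw [← Finsupp.single_add]
          have : (1 : F2) + 1 = 0 := by decide
          rw [this, Finsupp.single_zero]
        calc Finsupp.single (some (u t)) (1 : F2) + Finsupp.single none 1
            = Finsupp.single (some (u t)) (1 : F2) + Finsupp.single none 1 +
              (Finsupp.single (some (w t)) (1 : F2) + Finsupp.single (some (w t)) 1) := by
              rw [h3, add_zero]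
          _ = _ := by abel
      · simp [hty, htx]
  rw [key]
  constructor
  · rintro ⟨h1, h2, h3⟩
    refine ⟨fun t ht => ?_, ?_⟩
    · have := h2 t (fun h => ht (Finset.mem_of_mem_erase h))
      rw [off_apply, if_neg] at this
      · exact this
      · rw [Finset.mem_singleton]
        rintro rfl
        exact ht hyE
    · rw [h3, h1, f2_add_self, zero_smul, map_zero, add_zero]
  · rintro ⟨h1, h2⟩
    have h3 : z x = z y := by
      have := DFunLike.congr_fun h2 none
      rw [Finsupp.add_apply, lmap_notin some _ _ (by simp), zero_add] at this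
      simp at this
      revert this
      generalize z x = s
      generalize z y = t
      revert s t
      decide
    rw [h3, f2_add_self, zero_smul, add_zero] at h2
    refine ⟨h3, fun t ht => ?_, lmap_inj _ (Option.some_injective V) h2⟩
    rw [off_apply]
    split
    · rfl
    · rename_i hty
      rw [Finset.mem_singleton] at hty
      exact h1 t (fun h => ht (Finset.mem_erase.2 ⟨hty, h⟩))

end Graph

/-- contraction in a graph, in terms of the quotient of the vertex space -/
theorem bd_contract {β : Type} [Fintype β] [DecidableEq β] {V : Type} (u w : β → V)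
    (K : Finset β) : ∃ (V' : Type) (u' w' : β → V'), ∀ c : β → F2,
      bd u' w' c = 0 ↔ ∃ k : β → F2, (∀ f ∉ K, k f = 0) ∧ bd u w (c + k) = 0 := by
  classical
  set x : β → (V →₀ F2) := fun f => Finsupp.single (u f) (1 : F2) + Finsupp.single (w f) 1 with hx
  set S : Submodule F2 (V →₀ F2) := Submodule.span F2 (x '' (K : Set β)) with hS
  set q : V → (V →₀ F2) ⧸ S := fun v => S.mkQ (Finsupp.single v 1) with hq
  refine ⟨(V →₀ F2) ⧸ S, fun f => q (u f), fun f => q (w f), fun c => ?_⟩
  have hKeq : ∀ f ∈ K, q (u f) = q (w f) := by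
    intro f hf
    have h1 : S.mkQ (x f) = 0 := by
      rw [Submodule.mkQ_apply, Submodule.Quotient.mk_eq_zero]
      exact Submodule.subset_span ⟨f, hf, rfl⟩
    have h2 : q (u f) + q (w f) = 0 := by
      rw [← h1, hx, map_add]
    have h3 : q (w f) + q (w f) = 0 := by
      have : q (w f) + q (w f) = (1 + 1 : F2) • q (w f) := by rw [add_smul, one_smul]
      rw [this]
      have : (1 : F2) + 1 = 0 := by decide
      rw [this, zero_smul]
    calc q (u f) = q (u f) + (q (w f) + q (w f)) := by rw [h3, add_zero]
      _ = q (w f) := by rw [← add_assoc, h2, zero_add]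
  constructor
  · intro h
    have h1 : Finsupp.linearCombination F2 (id : ((V →₀ F2) ⧸ S) → _)
        (bd (fun f => q (u f)) (fun f => q (w f)) c) = 0 := by rw [h, map_zero]
    rw [bd_apply, map_sum] at h1
    have h2 : S.mkQ (bd u w c) = 0 := by
      rw [bd_apply, map_sum, ← h1]
      apply Finset.sum_congr rfl
      intro f _
      rw [map_smul, map_smul, map_add, map_add, Finsupp.linearCombination_single,
        Finsupp.linearCombination_single, one_smul, one_smul]
      rfl
    rw [Submodule.mkQ_apply, Submodule.Quotient.mk_eq_zero, hS] at h2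
    have h3 : bd u w c ∈ Submodule.span F2 (Set.range fun f : K => x f) := by
      convert h2 using 2
      ext y
      simp
    rw [Submodule.mem_span_range_iff_exists_fun] at h3
    obtain ⟨k, hk⟩ := h3
    refine ⟨fun f => if hf : f ∈ K then k ⟨f, hf⟩ else 0, fun f hf => by simp [hf], ?_⟩
    rw [map_add]
    have h4 : bd u w (fun f => if hf : f ∈ K then k ⟨f, hf⟩ else 0) = bd u w c := by
      rw [← hk, bd_apply, ← Finset.sum_subset (Finset.subset_univ K)]
      · rw [← Finset.sum_coe_sort K]
        apply Finset.sum_congr rfl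
        intro f _
        simp [hx]
      · intro f _ hf
        simp [hf]
    rw [h4]
    ext v
    rw [Finsupp.add_apply, f2_add_self]; rfl
  · rintro ⟨k, hk, h⟩
    have h1 : Finsupp.lmapDomain F2 F2 q (bd u w (c + k)) = 0 := by rw [h, map_zero]
    rw [bd_apply, map_sum] at h1
    rw [bd_apply, ← h1]
    apply Finset.sum_congr rfl
    intro f _
    rw [map_smul, map_add]
    simp only [Finsupp.lmapDomain_apply, Finsupp.mapDomain_single, Pi.add_apply, add_smul]
    by_cases hf : f ∈ K
    · rw [hKeq f hf]
      have h3 : Finsupp.single (q (w f)) (1 : F2) + Finsupp.single (q (w f)) 1 = 0 := by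
        rw [← Finsupp.single_add]
        have : (1 : F2) + 1 = 0 := by decide
        rw [this, Finsupp.single_zero]
      rw [h3, smul_zero, smul_zero, add_zero]
    · rw [hk f hf, zero_smul, add_zero]

end Pool.Agent.Helper263.Recski
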