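import Pool.Agent.Helper263.RMain4

set_option autoImplicit false
set_option linter.unusedSectionVars false

namespace Pool.Agent.Helper263.Recski

open Finset

section Induct

variable {α : Type} [Fintype α] [DecidableEq α]
variable {β : Type} [Fintype β] [DecidableEq β]

/-- linear version of `lift` -/
def liftL (τ : α → α) (D : Finset α) : (α → F2) →ₗ[F2] (α → F2) where
  toFun z := lift τ D z
  map_add' := by
    intro a b
    funext x
    by_cases h : x ∈ D <;> simp [lift, h]
  map_smul' := by
    intro c a
    funext x
    by_cases h : x ∈ D <;> simp [lift, h]

theorem liftL_apply (τ : α → α) (D : Finset α) (z : α → F2) : liftL τ D z = lift τ D z := rfl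

theorem graphic_of_HU {Y1 Y2 : Submodule F2 (β → F2)} {V1 V2 : Type} (u1 w1 : β → V1)
    (u2 w2 : β → V2) (hY1 : ∀ c, c ∈ Y1 ↔ bd u1 w1 c = 0) (hY2 : ∀ c, c ∈ Y2 ↔ bd u2 w2 c = 0) :
    ∀ (n : ℕ) (Z : Submodule F2 (α → F2)) (E : Finset α), E.card = n → Z ≤ supIn E →
      HU Y1 Y2 Z E → Graphic Z E := by
  classical
  intro n
  induction n using Nat.strong_induction_on with
  | _ n ih =>
    intro Z E hEn hZ hHU
    by_cases hE : E.card ≤ 1
    · exact graphic_small Z E hZ hE
    by_cases hconn : Conn Z E
    swap
    · unfold Conn at hconn
      push Not at hconn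
      obtain ⟨A, B, hAB, hd, hA, hB, hcut⟩ := hconn
      have hAE : A ⊆ E := by rw [← hAB]; exact subset_union_left
      have hBE : B ⊆ E := by rw [← hAB]; exact subset_union_right
      have hc : A.card + B.card = E.card := by
        rw [← Finset.card_union_of_disjoint hd, hAB]
      have hA1 := Finset.card_pos.2 hA
      have hB1 := Finset.card_pos.2 hB
      exact graphic_disj hZ hAB hd hcut
        (ih A.card (by omega) _ A rfl inf_le_right (hHU.restrict hZ hAE))
        (ih B.card (by omega) _ B rfl inf_le_right (hHU.restrict hZ hBE))
    by_cases hser : NoSeries Z E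
    swap
    · unfold NoSeries at hser
      push Not at hser
      obtain ⟨x, hx, y, hy, hxy, hz⟩ := hser
      set τ : α → α := fun t => if t = y then x else t with hτ
      set Z' : Submodule F2 (α → F2) := supIn (E.erase y) ⊓ Z.comap (liftL τ E) with hZ'
      have himg : E.image τ = E.erase y := by
        ext t
        simp only [Finset.mem_image, Finset.mem_erase, hτ]
        constructor
        · rintro ⟨s, hs, rfl⟩
          by_cases h : s = y
          · simp [h, hxy, hx]
          · simp [h, hs]
        · rintro ⟨h1, h2⟩
          exact ⟨t, h2, by simp [h1]⟩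
      have hlift : ∀ z : α → F2, z x = z y → (∀ t ∉ E, z t = 0) → lift τ E (off {y} z) = z := by
        intro z hzxy hzE
        funext t
        simp only [lift, hτ, off_apply, Finset.mem_singleton]
        by_cases ht : t ∈ E
        · by_cases hty : t = y
          · simp [hty, hy, hxy, hzxy]
          · simp [ht, hty]
        · simp [ht, hzE t ht]
      have hHU' : HU Y1 Y2 Z' (E.erase y) := by
        rw [← himg]
        refine HU.closure hZ (Finset.Subset.refl _) hHU ?_ ?_
        · intro z' hz'
          exact hz'.2
        · intro z hz1 hz2
          refine ⟨off {y} z, ⟨?_, ?_⟩, (hlift z (hz z hz1) hz2).symm⟩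
          · intro t ht
            rw [off_apply]
            split
            · rfl
            · rename_i hty
              rw [Finset.mem_singleton] at hty
              exact hz2 t (fun h => ht (Finset.mem_erase.2 ⟨hty, h⟩))
          · change lift τ E (off {y} z) ∈ Z
            rw [hlift z (hz z hz1) hz2]; exact hz1
      have hG := ih (E.erase y).card (by
        rw [Finset.card_erase_of_mem hy]; omega) Z' (E.erase y) rfl inf_le_left hHU'
      apply graphic_series hx hxy hy hG
      intro z
      constructor
      · intro hz1
        refine ⟨hz z hz1, ?_, ?_⟩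
        · intro t ht
          rw [off_apply]
          split
          · rfl
          · rename_i hty
            rw [Finset.mem_singleton] at hty
            exact hZ hz1 t (fun h => ht (Finset.mem_erase.2 ⟨hty, h⟩))
        · change lift τ E (off {y} z) ∈ Z
          rw [hlift z (hz z hz1) (hZ hz1)]; exact hz1
      · rintro ⟨h1, h2, h3⟩
        have hzE : ∀ t ∉ E, z t = 0 := by
          intro t ht
          have := h2 t (fun h => ht (Finset.mem_of_mem_erase h))
          rw [off_apply, if_neg] at this
          · exact this
          · rw [Finset.mem_singleton]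
            rintro rfl
            exact ht hy
        change lift τ E (off {y} z) ∈ Z at h3
        rw [hlift z h1 hzE] at h3
        exact h3
    by_cases h3 : Conn3 Z E
    · obtain ⟨p, F, hF, hU⟩ := hHU
      have hE2 : 2 ≤ E.card := by omega
      have hsing : ∀ e ∈ E, hh Y1 Y2 p F {e} = 0 := fun e he =>
        hh_single hZ hF hU hE2 hconn hser h3 he
      have hcyc : ∀ e ∈ E, ∃ z ∈ Z, z e ≠ 0 := fun e he => no_coloop hE2 hconn he
      rcases mono_color hZ hF hU hconn hsing with hc | hc
      · have hle : ∀ A ⊆ E, dd Y1 p F A ≤ nul Z A := by
          intro A hA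
          have h1 := dd_add hsing hA
          have h2 := hh_le (p := p) hZ hF hU A
          have h3 := dd_nonneg (p := p) (F := F) Y2 A
          linarith
        exact graphic_of_dd u1 w1 hY1 hZ hF hcyc (fun A hA =>
          le_antisymm (hle A hA) (dd_ge hc hle _ A rfl hA))
      · have hle : ∀ A ⊆ E, dd Y2 p F A ≤ nul Z A := by
          intro A hA
          have h1 := dd_add hsing hA
          have h2 := hh_le (p := p) hZ hF hU A
          have h3 := dd_nonneg (p := p) (F := F) Y1 A
          linarith
        exact graphic_of_dd u2 w2 hY2 hZ hF hcyc (fun A hA =>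
          le_antisymm (hle A hA) (dd_ge hc hle _ A rfl hA))
    · unfold Conn3 at h3
      push Not at h3
      obtain ⟨A, B, hAB, hd, hA2, hB2, c, hc, hsep0⟩ := h3
      have hAne : A.Nonempty := Finset.card_pos.1 (by omega)
      have hBne : B.Nonempty := Finset.card_pos.1 (by omega)
      have hcE : A.card + B.card = E.card := by
        rw [← Finset.card_union_of_disjoint hd, hAB]
      obtain ⟨z0, hz0, hz0c⟩ := hconn A B hAB hd hAne hBne
      obtain ⟨C, hC, hCA⟩ : ∃ C, Circ Z C ∧ cut A C ∉ Z := by
        by_contra hcon
        push Not at hcon
        have : Z ≤ Z.comap (cut A) := circ_induction _ hcon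
        exact hz0c (this hz0)
      have hsep : ∀ z ∈ Z, cut A z ∈ Z ∨ cut A (z + C) ∈ Z := by
        intro z hz
        by_cases h : cut A z ∈ Z
        · exact Or.inl h
        · right
          have h1 := hsep0 z hz h
          have h2 := hsep0 C hC.1 hCA
          have : cut A (z + C) = cut A (z + c) + cut A (C + c) := by
            rw [← map_add]
            congr 1
            calc z + C = z + C + (c + c) := by rw [vec_add_self, add_zero]
              _ = z + c + (C + c) := by abel
          rw [this]
          exact Z.add_mem h1 h2
      have hcc : ∀ z ∈ Z, cut A z + cut B z = z := fun z hz =>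
        cut_add_cut hd (by rw [hAB]; exact hZ hz)
      have hother : ∀ z ∈ Z, (cut A z ∈ Z ↔ cut B z ∈ Z) := by
        intro z hz
        constructor
        · intro h
          rw [cut_other (hcc z hz)]
          exact Z.add_mem hz h
        · intro h
          have : cut A z = z + cut B z := cut_other (by rw [add_comm]; exact hcc z hz)
          rw [this]
          exact Z.add_mem hz h
      have hCB : cut B C ∉ Z := fun h => hCA ((hother C hC.1).2 h)
      have hsepB : ∀ z ∈ Z, cut B z ∈ Z ∨ cut B (z + C) ∈ Z := by
        intro z hz
        rcases hsep z hz with h | h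
        · exact Or.inl ((hother z hz).1 h)
        · exact Or.inr ((hother _ (Z.add_mem hz hC.1)).1 h)
      obtain ⟨b, hb, hCb⟩ : ∃ b ∈ B, C b ≠ 0 := by
        by_contra hcon
        push Not at hcon
        apply hCA
        have : cut A C = C := by
          apply cut_of_sup
          intro x hx
          by_cases hxB : x ∈ B
          · exact hcon x hxB
          · apply hZ hC.1
            rw [← hAB, Finset.mem_union, not_or]
            exact ⟨hx, hxB⟩
        rw [this]; exact hC.1
      obtain ⟨a, ha, hCa⟩ : ∃ a ∈ A, C a ≠ 0 := by
        by_contra hcon
        push Not at hcon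
        apply hCB
        have : cut B C = C := by
          apply cut_of_sup
          intro x hx
          by_cases hxA : x ∈ A
          · exact hcon x hxA
          · apply hZ hC.1
            rw [← hAB, Finset.mem_union, not_or]
            exact ⟨hxA, hx⟩
        rw [this]; exact hC.1
      have hbA : b ∉ A := Finset.disjoint_right.1 hd hb
      have haB : a ∉ B := Finset.disjoint_left.1 hd ha
      obtain ⟨ZA, hZA1, hZA2, hZA3, hZA4⟩ := two_sep_part hZ hAB hd hHU hC hCA hsep hb hCb
      obtain ⟨ZB, hZB1, hZB2, hZB3, hZB4⟩ := two_sep_part hZ
        (by rw [Finset.union_comm]; exact hAB) hd.symm hHU hC hCB hsepB ha hCa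
      have hGA : Graphic ZA (insert b A) := ih (insert b A).card (by
        rw [Finset.card_insert_of_notMem hbA]; omega) ZA _ rfl hZA1 hZA2
      have hGB : Graphic ZB (insert a B) := ih (insert a B).card (by
        rw [Finset.card_insert_of_notMem haB]; omega) ZB _ rfl hZB1 hZB2
      refine graphic_two_sum hAB hd ha hb hGA hGB hZA3 hZB3 ?_
      intro z
      constructor
      · intro hz
        refine ⟨hZ hz, ?_⟩
        rcases hsep z hz with h | h
        · refine ⟨0, ?_, ?_⟩
          · rw [hZA4, zero_smul, add_zero]; exact h
          · rw [hZB4, zero_smul, add_zero]; exact (hother z hz).1 h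
        · refine ⟨1, ?_, ?_⟩
          · rw [hZA4, one_smul]
            have : cut A z + cut B C = cut A (z + C) + C := by
              nth_rewrite 3 [← hcc C hC.1]
              rw [map_add]
              calc cut A z + cut B C = cut A z + cut B C + (cut A C + cut A C) := by
                    rw [vec_add_self, add_zero]
                _ = _ := by abel
            rw [this]
            exact Z.add_mem h hC.1
          · rw [hZB4, one_smul]
            have : cut B z + cut A C = cut A (z + C) + z := by
              nth_rewrite 3 [← hcc z hz]
              rw [map_add]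
              calc cut B z + cut A C = cut B z + cut A C + (cut A z + cut A z) := by
                    rw [vec_add_self, add_zero]
                _ = _ := by abel
            rw [this]
            exact Z.add_mem h hz
      · rintro ⟨hzE, ε, h1, h2⟩
        rw [hZA4] at h1
        rw [hZB4] at h2
        have h3 := Z.add_mem h1 h2
        have hzc : cut A z + cut B z = z := cut_add_cut hd (by rw [hAB]; exact hzE)
        have : cut A z + ε • cut B C + (cut B z + ε • cut A C) = z + ε • C := by
          nth_rewrite 3 [← hzc]
          nth_rewrite 3 [← hcc C hC.1]
          rw [smul_add]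
          abel
        rw [this] at h3
        have h4 : z = (z + ε • C) + ε • C := by
          rw [add_assoc, vec_add_self, add_zero]
        rw [h4]
        exact Z.add_mem h3 (Z.smul_mem _ hC.1)

end Induct

end Pool.Agent.Helper263.Recski
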