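import Pool.Agent.Helper263.RClosure

set_option autoImplicit false
set_option linter.unusedSectionVars false

namespace Pool.Agent.Helper263.Recski

open Finset

section Main

variable {α : Type} [Fintype α] [DecidableEq α]
variable {β : Type} [Fintype β] [DecidableEq β]

/-- the part of the ground set lying over `A` -/
def P (p : β → α) (F : Finset β) (A : Finset α) : Finset β := F.filter (fun f => p f ∈ A)

theorem mem_P {p : β → α} {F : Finset β} {A : Finset α} {f : β} :
    f ∈ P p F A ↔ f ∈ F ∧ p f ∈ A := by simp [P]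

theorem P_union (p : β → α) (F : Finset β) (A B : Finset α) :
    P p F (A ∪ B) = P p F A ∪ P p F B := by
  ext f
  simp only [mem_P, Finset.mem_union]
  tauto

theorem P_inter (p : β → α) (F : Finset β) (A B : Finset α) :
    P p F (A ∩ B) = P p F A ∩ P p F B := by
  ext f
  simp only [mem_P, Finset.mem_inter]
  tauto

theorem P_mono (p : β → α) (F : Finset β) {A B : Finset α} (h : A ⊆ B) :
    P p F A ⊆ P p F B := by
  intro f hf
  rw [mem_P] at *
  exact ⟨hf.1, h hf.2⟩

theorem P_empty (p : β → α) (F : Finset β) : P p F ∅ = ∅ := by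
  ext f; simp [mem_P]

theorem P_sub (p : β → α) (F : Finset β) (A : Finset α) : P p F A ⊆ F :=
  Finset.filter_subset _ _

theorem card_P (p : β → α) (F : Finset β) (A : Finset α) :
    (P p F A).card = ∑ e ∈ A, (P p F {e}).card := by
  induction A using Finset.induction_on with
  | empty => simp [P_empty]
  | insert x A hx ih =>
    rw [Finset.sum_insert hx, Finset.insert_eq, P_union, Finset.card_union_of_disjoint, ih]
    rw [Finset.disjoint_left]
    intro f h1 h2
    rw [mem_P, Finset.mem_singleton] at h1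
    rw [mem_P, h1.2] at h2
    exact hx h2.2

theorem pb_injOn {Z : Submodule F2 (α → F2)} {E : Finset α} {p : β → α} {F : Finset β}
    (hZ : Z ≤ supIn E) (hF : F.image p = E) {z : α → F2} (hz : z ∈ Z) {A : Finset α}
    (h : ∀ f ∉ P p F A, pb p F z f = 0) : ∀ x ∉ A, z x = 0 := by
  intro x hx
  by_cases hxE : x ∈ E
  · rw [← hF] at hxE
    obtain ⟨f, hf, rfl⟩ := Finset.mem_image.1 hxE
    have := h f (by rw [mem_P]; exact fun h' => hx h'.2)
    rw [pb_apply, if_pos hf] at this
    exact this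
  · exact hZ hz x hxE

theorem nul_pb {Z : Submodule F2 (α → F2)} {E : Finset α} {p : β → α} {F : Finset β}
    (hZ : Z ≤ supIn E) (hF : F.image p = E) (A : Finset α) :
    nul (Z.map (pb p F)) (P p F A) = nul Z A := by
  unfold nul
  have h1 : restr (Z.map (pb p F)) (P p F A) = (restr Z A).map (pb p F) := by
    ext c
    rw [mem_restr, Submodule.mem_map, Submodule.mem_map]
    constructor
    · rintro ⟨⟨z, hz, rfl⟩, h⟩
      exact ⟨z, ⟨hz, pb_injOn hZ hF hz h⟩, rfl⟩
    · rintro ⟨z, hz, rfl⟩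
      refine ⟨⟨z, hz.1, rfl⟩, fun f hf => ?_⟩
      rw [pb_apply]
      split
      · rename_i hfF
        apply hz.2
        intro h
        exact hf (mem_P.2 ⟨hfF, h⟩)
      · rfl
  rw [h1]
  have h2 : Function.Injective ((pb p F).domRestrict (restr Z A)) := by
    rw [← LinearMap.ker_eq_bot, eq_bot_iff]
    rintro ⟨z, hz⟩ h
    rw [LinearMap.mem_ker, LinearMap.domRestrict_apply] at h
    rw [Submodule.mem_bot]
    apply Subtype.ext
    funext x
    have := pb_injOn (A := ∅) hZ hF hz.1 (fun f _ => by rw [h]; rfl)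
    exact this x (by simp)
  have h3 := LinearMap.finrank_range_of_inj h2
  rw [LinearMap.range_domRestrict] at h3
  exact h3

/-- cyclic sets -/
def Cyc (Z : Submodule F2 (α → F2)) (A : Finset α) : Prop :=
  ∀ x ∈ A, ∃ z ∈ Z, (∀ y ∉ A, z y = 0) ∧ z x ≠ 0

theorem cyc_supp {Z : Submodule F2 (α → F2)} {z : α → F2} (hz : z ∈ Z) : Cyc Z (supp z) :=
  fun _ hx => ⟨z, hz, supp_subset.1 (Finset.Subset.refl _), mem_supp.1 hx⟩

theorem Cyc.union {Z : Submodule F2 (α → F2)} {A B : Finset α} (hA : Cyc Z A) (hB : Cyc Z B) :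
    Cyc Z (A ∪ B) := by
  intro x hx
  rcases Finset.mem_union.1 hx with h | h
  · obtain ⟨z, h1, h2, h3⟩ := hA x h
    exact ⟨z, h1, fun y hy => h2 y (fun h => hy (Finset.mem_union_left _ h)), h3⟩
  · obtain ⟨z, h1, h2, h3⟩ := hB x h
    exact ⟨z, h1, fun y hy => h2 y (fun h => hy (Finset.mem_union_right _ h)), h3⟩

variable {Y1 Y2 : Submodule F2 (β → F2)} {Z : Submodule F2 (α → F2)} {E : Finset α}
  {p : β → α} {F : Finset β}

/-- the defect function -/
noncomputable def hh (Y1 Y2 : Submodule F2 (β → F2)) (p : β → α) (F : Finset β)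
    (A : Finset α) : ℤ :=
  (nul Y1 (P p F A) : ℤ) + nul Y2 (P p F A) - (P p F A).card

theorem hh_super (A B : Finset α) :
    hh Y1 Y2 p F A + hh Y1 Y2 p F B ≤ hh Y1 Y2 p F (A ∪ B) + hh Y1 Y2 p F (A ∩ B) := by
  unfold hh
  rw [P_union, P_inter]
  have h1 := nul_super Y1 (P p F A) (P p F B)
  have h2 := nul_super Y2 (P p F A) (P p F B)
  have h3 := Finset.card_union_add_card_inter (P p F A) (P p F B)
  zify at h1 h2 h3
  linarith

theorem hh_le (hZ : Z ≤ supIn E) (hF : F.image p = E) (hU : IsUnion (Z.map (pb p F)) Y1 Y2 F)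
    (A : Finset α) : hh Y1 Y2 p F A ≤ nul Z A := by
  have h := union_nul_le hU (P p F A) (P_sub p F A)
  rw [nul_pb hZ hF] at h
  unfold hh
  zify at h
  linarith

theorem hh_eq (hZ : Z ≤ supIn E) (hF : F.image p = E) (hU : IsUnion (Z.map (pb p F)) Y1 Y2 F)
    {A : Finset α} (hA : Cyc Z A) : hh Y1 Y2 p F A = nul Z A := by
  have h := union_nul_eq hU (P p F A) (P_sub p F A) (by
    intro f hf
    rw [mem_P] at hf
    obtain ⟨z, h1, h2, h3⟩ := hA (p f) hf.2
    refine ⟨pb p F z, Submodule.mem_map_of_mem h1, ?_, ?_⟩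
    · intro g hg
      rw [pb_apply]
      split
      · rename_i hgF
        apply h2
        intro h
        exact hg (mem_P.2 ⟨hgF, h⟩)
      · rfl
    · rw [pb_apply, if_pos hf.1]; exact h3)
  rw [nul_pb hZ hF] at h
  unfold hh
  zify at h
  linarith

/-- structure facts from connectivity -/
theorem no_coloop (hE : 2 ≤ E.card) (hconn : Conn Z E) {x : α} (hx : x ∈ E) :
    ∃ z ∈ Z, z x ≠ 0 := by
  obtain ⟨z, hz, hz'⟩ := hconn {x} (E.erase x) (by
      rw [← Finset.insert_eq, Finset.insert_erase hx])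
    (by simp) (Finset.singleton_nonempty x) (by
      rw [← Finset.card_pos, Finset.card_erase_of_mem hx]; omega)
  refine ⟨z, hz, fun h => hz' ?_⟩
  have : cut {x} z = 0 := by
    funext y
    rw [cut_apply]
    split
    · rename_i hy
      rw [Finset.mem_singleton] at hy
      rw [hy, h]; rfl
    · rfl
  rw [this]
  exact Z.zero_mem

theorem no_loop (hE : 2 ≤ E.card) (hconn : Conn Z E) {x : α} (hx : x ∈ E) :
    Ind Z {x} := by
  intro v hv hvx
  by_contra hv0
  obtain ⟨z, hz, hz'⟩ := hconn {x} (E.erase x) (by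
      rw [← Finset.insert_eq, Finset.insert_erase hx])
    (by simp) (Finset.singleton_nonempty x) (by
      rw [← Finset.card_pos, Finset.card_erase_of_mem hx]; omega)
  apply hz'
  have hvx' : v x ≠ 0 := by
    intro h
    apply hv0
    funext y
    by_cases hy : y = x
    · rw [hy, h]; rfl
    · exact hvx y (by simpa using hy)
  by_cases hzx : z x = 0
  · have : cut {x} z = 0 := by
      funext y
      rw [cut_apply]
      split
      · rename_i hy
        rw [Finset.mem_singleton] at hy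
        rw [hy, hzx]; rfl
      · rfl
    rw [this]; exact Z.zero_mem
  · have : cut {x} z = v := by
      funext y
      rw [cut_apply]
      split
      · rename_i hy
        rw [Finset.mem_singleton] at hy
        rw [hy, f2_ne_zero.1 hzx, f2_ne_zero.1 hvx']
      · rename_i hy
        exact (hvx y hy).symm
    rw [this]; exact hv

theorem separate (hE : 2 ≤ E.card) (hconn : Conn Z E) (hser : NoSeries Z E) {x y : α}
    (hx : x ∈ E) (hy : y ∈ E) (hxy : x ≠ y) : ∃ z ∈ Z, z x = 0 ∧ z y ≠ 0 := by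
  obtain ⟨z, hz, hne⟩ := hser x hx y hy hxy
  by_cases h : z x = 0
  · exact ⟨z, hz, h, fun h' => hne (by rw [h, h'])⟩
  · have hzy : z y = 0 := by
      rcases f2_cases (z y) with h' | h'
      · exact h'
      · exfalso; exact hne (by rw [f2_ne_zero.1 h, h'])
    obtain ⟨w, hw, hwy⟩ := no_coloop hE hconn hy
    by_cases h2 : w x = 0
    · exact ⟨w, hw, h2, hwy⟩
    · refine ⟨z + w, Z.add_mem hz hw, ?_, ?_⟩
      · rw [Pi.add_apply, f2_ne_zero.1 h, f2_ne_zero.1 h2]; decide
      · rw [Pi.add_apply, hzy, zero_add]; exact hwy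

theorem cyc_erase (hE : 2 ≤ E.card) (hZ : Z ≤ supIn E) (hconn : Conn Z E) (hser : NoSeries Z E)
    {x : α} (hx : x ∈ E) : Cyc Z (E.erase x) := by
  intro y hy
  rw [Finset.mem_erase] at hy
  obtain ⟨z, hz, h1, h2⟩ := separate hE hconn hser hx hy.2 hy.1.symm
  refine ⟨z, hz, ?_, h2⟩
  intro t ht
  by_cases htx : t = x
  · rw [htx]; exact h1
  · apply hZ hz
    intro h
    exact ht (Finset.mem_erase.2 ⟨htx, h⟩)

theorem off_eq_zero_iff {A : Finset α} (hA : Ind Z A) {z : α → F2} (hz : z ∈ Z)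
    (h : off A z = 0) : z = 0 := by
  apply hA z hz
  intro x hx
  have := congrFun h x
  rw [off_apply, if_neg hx] at this
  exact this

theorem off_inj {A : Finset α} (hA : Ind Z A) {z w : α → F2} (hz : z ∈ Z) (hw : w ∈ Z)
    (h : off A z = off A w) : z = w := by
  have h1 : off A (z + w) = 0 := by
    rw [map_add, h]; exact vec_add_self _
  have h2 := off_eq_zero_iff hA (Z.add_mem hz hw) h1
  calc z = (z + w) + w := by rw [add_assoc, vec_add_self, add_zero]
    _ = w := by rw [h2, zero_add]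

theorem Theta.swap {K z1 z2 : α → F2} (h : Theta Z K z1 z2) : Theta Z K z2 z1 := by
  have hz1 : K + z2 = z1 := by rw [← h.add, vec_add_cancel]
  refine ⟨h.cK, h.c2, h.c1, hz1, ?_⟩
  intro w hw hwx
  have := h.all w hw (fun x h1 h2 => hwx x h1 (by
    rw [← h.add, Pi.add_apply, h1, h2, add_zero]))
  tauto

/-- the reduction step in the 3-connected case -/
theorem reduce_step (hZ : Z ≤ supIn E) (hE : 2 ≤ E.card) (hconn : Conn Z E)
    (hser : NoSeries Z E) (h3 : Conn3 Z E) {A : Finset α} {e : α} (heA : e ∈ A) (hAE : A ⊆ E)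
    (hA : Ind Z A) (hcard : 2 ≤ A.card) :
    ∃ z, Circ (Z.map (off A)) (off A z) ∧ z ∈ Z ∧ z e ≠ 0 ∧ ∃ f ∈ A, z f = 0 := by
  classical
  by_contra hcon
  push Not at hcon
  -- every circuit whose lift contains e has a lift containing A
  have H : ∀ K, Circ (Z.map (off A)) K → ∀ z ∈ Z, off A z = K → z e ≠ 0 →
      ∀ f ∈ A, z f ≠ 0 := by
    intro K hK z hz hzK hze f hf
    exact hcon z (by rw [hzK]; exact hK) hz hze f hf
  set ZA := Z.map (off A) with hZA
  set ca : (α → F2) → Prop := fun K => ∃ z ∈ Z, off A z = K ∧ z e = 0 ∧ ∃ f ∈ A, z f ≠ 0 with hca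
  set cb : (α → F2) → Prop := fun K => ∃ z ∈ Z, off A z = K ∧ z e ≠ 0 with hcb
  have hab : ∀ K, ¬ (ca K ∧ cb K) := by
    rintro K ⟨⟨z, hz, hzK, hze, -⟩, ⟨w, hw, hwK, hwe⟩⟩
    have := off_inj hA hz hw (by rw [hzK, hwK])
    rw [this] at hze
    exact hwe hze
  have hlift : ∀ K, Circ ZA K → ∃ z ∈ Z, off A z = K := by
    intro K hK
    exact Submodule.mem_map.1 hK.1
  have h1' : ∀ K z1 z2, Theta ZA K z1 z2 → ca K → ¬ cb z1 := by
    rintro K z1 z2 hT ⟨k, hk, hkK, hke, f, hf, hkf⟩ ⟨v, hv, hvz, hve⟩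
    have hvf := H z1 hT.c1 v hv hvz hve f hf
    have h2 : off A (k + v) = z2 := by rw [map_add, hkK, hvz, hT.add]
    have h3 : (k + v) e ≠ 0 := by rw [Pi.add_apply, hke, zero_add]; exact hve
    have h4 := H z2 hT.c2 (k + v) (Z.add_mem hk hv) h2 h3 f hf
    apply h4
    rw [Pi.add_apply, f2_ne_zero.1 hkf, f2_ne_zero.1 hvf]
    decide
  have h1 : ∀ K z1 z2, Theta ZA K z1 z2 → ca K → ¬ cb z1 ∧ ¬ cb z2 :=
    fun K z1 z2 hT hK => ⟨h1' K z1 z2 hT hK, h1' K z2 z1 hT.swap hK⟩
  have h2 : ∀ K z1 z2, Theta ZA K z1 z2 → ca K → ca z1 ∨ ca z2 := by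
    intro K z1 z2 hT hK
    obtain ⟨hn1, hn2⟩ := h1 K z1 z2 hT hK
    obtain ⟨k, hk, hkK, hke, f, hf, hkf⟩ := hK
    obtain ⟨v, hv, hvz⟩ := hlift z1 hT.c1
    have hve : v e = 0 := by
      by_contra h
      exact hn1 ⟨v, hv, hvz, h⟩
    by_cases hvf : v f = 0
    · right
      refine ⟨k + v, Z.add_mem hk hv, by rw [map_add, hkK, hvz, hT.add], ?_, f, hf, ?_⟩
      · rw [Pi.add_apply, hke, hve, add_zero]
      · rw [Pi.add_apply, hvf, add_zero]; exact hkf
    · left
      exact ⟨v, hv, hvz, hve, f, hf, hvf⟩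
  have h2b : ∀ K z1 z2, Theta ZA K z1 z2 → cb K → cb z1 ∨ cb z2 := by
    intro K z1 z2 hT hK
    obtain ⟨k, hk, hkK, hke⟩ := hK
    obtain ⟨v, hv, hvz⟩ := hlift z1 hT.c1
    by_cases hve : v e = 0
    · right
      refine ⟨k + v, Z.add_mem hk hv, by rw [map_add, hkK, hvz, hT.add], ?_⟩
      rw [Pi.add_apply, hve, add_zero]; exact hke
    · left
      exact ⟨v, hv, hvz, hve⟩
  set Ub : Finset α := Finset.univ.filter (fun x => ∃ K, Circ ZA K ∧ cb K ∧ K x ≠ 0) with hUb
  have memUb : ∀ x, x ∈ Ub ↔ ∃ K, Circ ZA K ∧ cb K ∧ K x ≠ 0 := by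
    intro x; simp [hUb]
  have ZA_supp : ∀ K ∈ ZA, ∀ x, K x ≠ 0 → x ∈ E ∧ x ∉ A := by
    rintro K hK x hx
    obtain ⟨z, hz, rfl⟩ := Submodule.mem_map.1 hK
    rw [off_apply] at hx
    by_cases hxA : x ∈ A
    · rw [if_pos hxA] at hx; exact absurd rfl hx
    · rw [if_neg hxA] at hx
      refine ⟨?_, hxA⟩
      by_contra h
      exact hx (hZ hz x h)
  have UbE : ∀ x ∈ Ub, x ∈ E ∧ x ∉ A := by
    intro x hx
    obtain ⟨K, hK, -, hKx⟩ := (memUb x).1 hx
    exact ZA_supp K hK.1 x hKx
  -- trichotomy for circuits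
  have tri : ∀ K, Circ ZA K → ∀ z ∈ Z, off A z = K →
      ((∀ x ∈ Ub, z x = 0) ∧ z e = 0) ∨
      ((∀ x, K x ≠ 0 → x ∈ Ub) ∧ ((∀ f ∈ A, z f = 0) ∨ (∀ f ∈ A, z f ≠ 0))) := by
    intro K hK z hz hzK
    by_cases hmeet : ∃ x ∈ Ub, K x ≠ 0
    · right
      obtain ⟨x, hxU, hKx⟩ := hmeet
      obtain ⟨K', hK', hcK', hK'x⟩ := (memUb x).1 hxU
      refine ⟨?_, ?_⟩
      · intro y hy
        rw [memUb]
        exact color_cover h2b hK' hK hcK' hK'x hKx y hy
      · by_cases hze : z e = 0
        · left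
          intro f hf
          by_contra hzf
          have hcaK : ca K := ⟨z, hz, hzK, hze, f, hf, hzf⟩
          rcases color_disjoint (fun K _ => hab K) h1 h2 hK hK' hcaK hcK' x with h | h
          · exact hKx h
          · exact hK'x h
        · right
          exact H K hK z hz hzK hze
    · left
      push Not at hmeet
      constructor
      · intro x hx
        have := hmeet x hx
        rw [← hzK, off_apply, if_neg (UbE x hx).2] at this
        exact this
      · by_contra hze
        have hcbK : cb K := ⟨z, hz, hzK, hze⟩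
        obtain ⟨y, hy⟩ := Function.ne_iff.1 hK.2.1
        exact hy (hmeet y ((memUb y).2 ⟨K, hK, hcbK, hy⟩))
  set S1 : Finset α := insert e Ub with hS1
  set S2 : Finset α := E \ S1 with hS2
  have heE : e ∈ E := hAE heA
  have heUb : e ∉ Ub := fun h => (UbE e h).2 heA
  have hS1E : S1 ⊆ E := by
    intro x hx
    rcases Finset.mem_insert.1 hx with h | h
    · rw [h]; exact heE
    · exact (UbE x h).1
  have hunion : S1 ∪ S2 = E := Finset.union_sdiff_of_subset hS1E
  have hdisj : Disjoint S1 S2 := Finset.disjoint_sdiff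
  -- U_b is nonempty
  have hUbne : Ub.Nonempty := by
    by_contra hempty
    rw [Finset.not_nonempty_iff_eq_empty] at hempty
    obtain ⟨v, hv, hve⟩ := no_coloop hE hconn heE
    -- all lifts vanish at e
    let W : Submodule F2 (α → F2) := (Z ⊓ LinearMap.ker (LinearMap.proj e)).map (off A)
    have hW : ZA ≤ W := by
      apply circ_induction
      intro K hK
      obtain ⟨z, hz, hzK⟩ := hlift K hK
      refine ⟨z, ⟨hz, ?_⟩, hzK⟩
      rw [SetLike.mem_coe, LinearMap.mem_ker]
      by_contra hze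
      obtain ⟨y, hy⟩ := Function.ne_iff.1 hK.2.1
      have : y ∈ Ub := (memUb y).2 ⟨K, hK, ⟨z, hz, hzK, hze⟩, hy⟩
      rw [hempty] at this
      simp at this
    obtain ⟨w, ⟨hw1, hw2⟩, hwv⟩ := hW (Submodule.mem_map_of_mem (f := off A) hv)
    have := off_inj hA hw1 hv hwv
    rw [this] at hw2
    exact hve hw2
  have hS1card : 2 ≤ S1.card := by
    rw [hS1, Finset.card_insert_of_notMem heUb]
    have := Finset.card_pos.2 hUbne
    omega
  have hS2card : 2 ≤ S2.card := by
    obtain ⟨f, hf⟩ : (A.erase e).Nonempty := by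
      rw [← Finset.card_pos, Finset.card_erase_of_mem heA]; omega
    rw [Finset.mem_erase] at hf
    have hfS2 : f ∈ S2 := by
      rw [hS2, Finset.mem_sdiff, hS1, Finset.mem_insert, not_or]
      exact ⟨hAE hf.2, hf.1, fun h => (UbE f h).2 hf.2⟩
    by_contra hlt
    have hS2f : S2 = {f} := by
      rw [Finset.eq_singleton_iff_unique_mem]
      exact ⟨hfS2, fun x hx => Finset.card_le_one.1 (by omega) x hx f hfS2⟩
    -- then {e, f} is a series pair
    obtain ⟨v, hv, hvne⟩ := hser e heE f (hAE hf.2) hf.1.symm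
    let W : Submodule F2 (α → F2) := (Z ⊓ LinearMap.ker
      ((LinearMap.proj e : (α → F2) →ₗ[F2] F2) + LinearMap.proj f)).map (off A)
    have hW : ZA ≤ W := by
      apply circ_induction
      intro K hK
      obtain ⟨z, hz, hzK⟩ := hlift K hK
      refine ⟨z, ⟨hz, ?_⟩, hzK⟩
      rw [SetLike.mem_coe, LinearMap.mem_ker, LinearMap.add_apply, LinearMap.proj_apply,
        LinearMap.proj_apply]
      rcases tri K hK z hz hzK with ⟨hU, -⟩ | ⟨-, h | h⟩
      · -- K is supported outside A and U_b, impossible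
        exfalso
        obtain ⟨y, hy⟩ := Function.ne_iff.1 hK.2.1
        have hyEA := ZA_supp K hK.1 y hy
        have hyU : y ∉ Ub := by
          intro h
          apply hy
          rw [← hzK, off_apply, if_neg hyEA.2, hU y h]
          rfl
        have : y ∈ S2 := by
          rw [hS2, Finset.mem_sdiff, hS1, Finset.mem_insert, not_or]
          refine ⟨hyEA.1, ?_, hyU⟩
          rintro rfl
          exact hyEA.2 heA
        rw [hS2f, Finset.mem_singleton] at this
        rw [this] at hyEA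
        exact hyEA.2 hf.2
      · rw [h e heA, h f hf.2, add_zero]
      · rw [f2_ne_zero.1 (h e heA), f2_ne_zero.1 (h f hf.2)]; decide
    obtain ⟨w, ⟨hw1, hw2⟩, hwv⟩ := hW (Submodule.mem_map_of_mem (f := off A) hv)
    have := off_inj hA hw1 hv hwv
    rw [this, SetLike.mem_coe, LinearMap.mem_ker, LinearMap.add_apply, LinearMap.proj_apply,
      LinearMap.proj_apply] at hw2
    apply hvne
    revert hw2
    generalize v e = s
    generalize v f = t
    revert s t
    decide
  -- the space of vectors that split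
  let Zb : Submodule F2 (α → F2) := Z ⊓ Z.comap (cut S1)
  -- full vectors
  have hfull : ∀ z ∈ Z, (∀ x ∈ E, x ∉ A → z x ≠ 0 → x ∈ Ub) → (∀ f ∈ A, z f = 0) → z ∈ Zb := by
    intro z hz h1 h2
    refine ⟨hz, ?_⟩
    change cut S1 z ∈ Z
    have : cut S1 z = z := by
      apply cut_of_sup
      intro x hx
      rw [hS1, Finset.mem_insert, not_or] at hx
      by_cases hxE : x ∈ E
      · by_cases hxA : x ∈ A
        · exact h2 x hxA
        · by_contra h
          exact hx.2 (h1 x hxE hxA h)
      · exact hZ hz x hxE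
    rw [this]; exact hz
  have hKsupp : ∀ (K : α → F2) (z : α → F2), off A z = K → (∀ x, K x ≠ 0 → x ∈ Ub) →
      (∀ x ∈ E, x ∉ A → z x ≠ 0 → x ∈ Ub) := by
    intro K z hzK h x _ hxA hzx
    apply h
    rw [← hzK, off_apply, if_neg hxA]
    exact hzx
  obtain ⟨c, hc, hcW⟩ : ∃ c ∈ Z, ∀ K, Circ ZA K → ∀ z ∈ Z, off A z = K → z ∈ Zb ∨ z + c ∈ Zb := by
    by_cases hex : ∃ c ∈ Z, (∀ x ∈ E, x ∉ A → c x ≠ 0 → x ∈ Ub) ∧ (∀ f ∈ A, c f ≠ 0)
    · obtain ⟨c, hc, hc1, hc2⟩ := hex
      refine ⟨c, hc, ?_⟩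
      intro K hK z hz hzK
      rcases tri K hK z hz hzK with ⟨hU, hze⟩ | ⟨hU, h | h⟩
      · left
        refine ⟨hz, ?_⟩
        change cut S1 z ∈ Z
        have : cut S1 z = 0 := by
          funext x
          rw [cut_apply]
          split
          · rename_i hx
            rcases Finset.mem_insert.1 hx with h | h
            · rw [h, hze]; rfl
            · exact hU x h
          · rfl
        rw [this]; exact Z.zero_mem
      · left
        exact hfull z hz (hKsupp K z hzK hU) h
      · right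
        apply hfull (z + c) (Z.add_mem hz hc)
        · intro x hxE hxA hzx
          by_cases h1 : z x = 0
          · apply hc1 x hxE hxA
            rw [Pi.add_apply, h1, zero_add] at hzx
            exact hzx
          · exact hKsupp K z hzK hU x hxE hxA h1
        · intro f hf
          rw [Pi.add_apply, f2_ne_zero.1 (h f hf), f2_ne_zero.1 (hc2 f hf)]
          decide
    · push Not at hex
      refine ⟨0, Z.zero_mem, ?_⟩
      intro K hK z hz hzK
      left
      rcases tri K hK z hz hzK with ⟨hU, hze⟩ | ⟨hU, h | h⟩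
      · refine ⟨hz, ?_⟩
        change cut S1 z ∈ Z
        have : cut S1 z = 0 := by
          funext x
          rw [cut_apply]
          split
          · rename_i hx
            rcases Finset.mem_insert.1 hx with h | h
            · rw [h, hze]; rfl
            · exact hU x h
          · rfl
        rw [this]; exact Z.zero_mem
      · exact hfull z hz (hKsupp K z hzK hU) h
      · exfalso
        obtain ⟨f, hf, hzf⟩ := hex z hz (hKsupp K z hzK hU)
        exact h f hf hzf
  have hZW : ∀ z ∈ Z, z ∈ Zb ∨ z + c ∈ Zb := by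
    have hle : ZA ≤ (Zb ⊔ Submodule.span F2 {c}).map (off A) := by
      apply circ_induction
      intro K hK
      obtain ⟨z, hz, hzK⟩ := hlift K hK
      refine ⟨z, ?_, hzK⟩
      rcases hcW K hK z hz hzK with h | h
      · exact Submodule.mem_sup_left h
      · rw [SetLike.mem_coe, Submodule.mem_sup]
        refine ⟨z + c, h, c, Submodule.mem_span_singleton_self c, ?_⟩
        rw [add_assoc, vec_add_self, add_zero]
    have hWZ : Zb ⊔ Submodule.span F2 {c} ≤ Z := by
      apply sup_le inf_le_left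
      rw [Submodule.span_singleton_le_iff_mem]
      exact hc
    intro z hz
    obtain ⟨w, hw, hwz⟩ := hle (Submodule.mem_map_of_mem (f := off A) hz)
    have := off_inj hA (hWZ hw) hz hwz
    rw [this, SetLike.mem_coe, Submodule.mem_sup] at hw
    obtain ⟨v, hv, t, ht, hvt⟩ := hw
    rw [Submodule.mem_span_singleton] at ht
    obtain ⟨s, rfl⟩ := ht
    rcases f2_cases s with h | h
    · left
      rw [← hvt, h, zero_smul, add_zero]; exact hv
    · right
      rw [← hvt, h, one_smul, add_assoc, vec_add_self, add_zero]; exact hv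
  obtain ⟨z, hz, hz1, hz2⟩ := h3 S1 S2 hunion hdisj hS1card hS2card c hc
  rcases hZW z hz with h | h
  · exact hz1 h.2
  · exact hz2 h.2

end Main

end Pool.Agent.Helper263.Recski
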