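import Pool.Agent.Helper263.RMain

set_option autoImplicit false
set_option linter.unusedSectionVars false

namespace Pool.Agent.Helper263.Recski

open Finset

section Main2

variable {α : Type} [Fintype α] [DecidableEq α]
variable {β : Type} [Fintype β] [DecidableEq β]
variable {Y1 Y2 : Submodule F2 (β → F2)} {Z : Submodule F2 (α → F2)} {E : Finset α}
  {p : β → α} {F : Finset β}

theorem hh_single_aux (hZ : Z ≤ supIn E) (hF : F.image p = E)
    (hU : IsUnion (Z.map (pb p F)) Y1 Y2 F) (hE : 2 ≤ E.card) (hconn : Conn Z E)
    (hser : NoSeries Z E) (h3 : Conn3 Z E) {e : α} :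
    ∀ (n : ℕ) (A : Finset α), A.card = n → e ∈ A → A ⊆ E → Ind Z A →
      0 ≤ hh Y1 Y2 p F A → 0 ≤ hh Y1 Y2 p F {e} := by
  classical
  intro n
  induction n using Nat.strong_induction_on with
  | _ n ih =>
    intro A hAn heA hAE hA hh0
    by_cases hcard : 2 ≤ A.card
    · obtain ⟨z, hK, hz, hze, f, hf, hzf⟩ := reduce_step hZ hE hconn hser h3 heA hAE hA hcard
      -- B = support of z
      have h1 := hh_super (Y1 := Y1) (Y2 := Y2) (p := p) (F := F) A (supp z)
      have h2 : hh Y1 Y2 p F (supp z) = nul Z (supp z) := hh_eq hZ hF hU (cyc_supp hz)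
      have h3' : 1 ≤ nul Z (supp z) := by
        rw [Nat.one_le_iff_ne_zero]
        intro h
        rw [nul_eq_zero] at h
        have := h z hz (supp_subset.1 (Finset.Subset.refl _))
        rw [this] at hze
        exact hze rfl
      have h4 : hh Y1 Y2 p F (A ∪ supp z) ≤ nul Z (A ∪ supp z) := hh_le hZ hF hU _
      have h5 : nul Z (A ∪ supp z) ≤ 1 := by
        obtain ⟨y, hy⟩ := Function.ne_iff.1 hK.2.1
        have hyA : y ∉ A := by
          intro h
          apply hy
          rw [off_apply, if_pos h]; rfl
        have hyz : z y ≠ 0 := by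
          rw [off_apply, if_neg hyA] at hy
          exact hy
        have h6 : nul Z ((A ∪ supp z).erase y) = 0 := by
          rw [nul_eq_zero]
          intro w hw hwx
          have h7 : off A w ∈ Z.map (off A) := Submodule.mem_map_of_mem hw
          rcases hK.2.2 _ h7 (by
            intro x hx
            rw [off_apply] at hx ⊢
            by_cases hxA : x ∈ A
            · rw [if_pos hxA]
            · rw [if_neg hxA] at hx ⊢
              apply hwx
              intro hmem
              rw [Finset.mem_erase, Finset.mem_union, mem_supp] at hmem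
              rcases hmem.2 with h | h
              · exact hxA h
              · exact h hx) with h | h
          · exact off_eq_zero_iff hA hw h
          · exfalso
            have := off_inj hA hw hz h
            rw [this] at hwx
            exact hyz (hwx y (by simp))
        have h8 := nul_insert_le Z ((A ∪ supp z).erase y) y
        rw [Finset.insert_erase (Finset.mem_union_right _ (mem_supp.2 hyz)), h6] at h8
        omega
      have h9 : 0 ≤ hh Y1 Y2 p F (A ∩ supp z) := by
        have h3'' : (1 : ℤ) ≤ nul Z (supp z) := by exact_mod_cast h3'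
        have h5' : (nul Z (A ∪ supp z) : ℤ) ≤ 1 := by exact_mod_cast h5
        linarith
      have hlt : (A ∩ supp z).card < n := by
        rw [← hAn]
        apply Finset.card_lt_card
        refine ⟨Finset.inter_subset_left, fun h => ?_⟩
        have := h hf
        rw [Finset.mem_inter, mem_supp] at this
        exact this.2 hzf
      exact ih _ hlt (A ∩ supp z) rfl (Finset.mem_inter.2 ⟨heA, mem_supp.2 hze⟩)
        (Finset.inter_subset_left.trans hAE) (hA.mono Finset.inter_subset_left) h9
    · have : A = {e} := by
        rw [Finset.eq_singleton_iff_unique_mem]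
        exact ⟨heA, fun x hx => Finset.card_le_one.1 (by omega) x hx e heA⟩
      rw [← this]; exact hh0

theorem hh_single (hZ : Z ≤ supIn E) (hF : F.image p = E)
    (hU : IsUnion (Z.map (pb p F)) Y1 Y2 F) (hE : 2 ≤ E.card) (hconn : Conn Z E)
    (hser : NoSeries Z E) (h3 : Conn3 Z E) {e : α} (he : e ∈ E) :
    hh Y1 Y2 p F {e} = 0 := by
  classical
  apply le_antisymm
  · have := hh_le (p := p) hZ hF hU {e}
    rw [nul_eq_zero.2 (no_loop hE hconn he)] at this
    exact_mod_cast this
  · obtain ⟨z, hz, hze⟩ := no_coloop hE hconn he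
    obtain ⟨C, hC, hCe, -⟩ := exists_circ hz hze
    have hex : ∃ x, x ≠ e ∧ C x ≠ 0 := by
      by_contra hcon
      push Not at hcon
      apply hC.2.1
      apply no_loop hE hconn he C hC.1
      intro x hx
      exact hcon x (by simpa using hx)
    obtain ⟨x, hxe, hCx⟩ := hex
    have hCE : supp C ⊆ E := supp_subset.2 (hZ hC.1)
    have hxE : x ∈ E := hCE (mem_supp.2 hCx)
    have h1 := hh_super (Y1 := Y1) (Y2 := Y2) (p := p) (F := F) (supp C) (E.erase x)
    have e1 : supp C ∪ E.erase x = E := by
      apply Finset.Subset.antisymm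
      · exact Finset.union_subset hCE (Finset.erase_subset _ _)
      · intro y hy
        rw [Finset.mem_union, Finset.mem_erase]
        by_cases hyx : y = x
        · left; rw [hyx]; exact mem_supp.2 hCx
        · right; exact ⟨hyx, hy⟩
    have e2 : supp C ∩ E.erase x = (supp C).erase x := by
      ext y
      simp only [Finset.mem_inter, Finset.mem_erase]
      constructor
      · rintro ⟨h, h', -⟩; exact ⟨h', h⟩
      · rintro ⟨h, h'⟩; exact ⟨h', h, hCE h'⟩
    rw [e1, e2] at h1
    have h2 : hh Y1 Y2 p F (supp C) = nul Z (supp C) := hh_eq hZ hF hU (cyc_supp hC.1)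
    rw [circ_nul hC] at h2
    have h4 : hh Y1 Y2 p F (E.erase x) = nul Z (E.erase x) :=
      hh_eq hZ hF hU (cyc_erase hE hZ hconn hser hxE)
    have h5 : hh Y1 Y2 p F E ≤ nul Z E := hh_le hZ hF hU _
    have h6 : nul Z (E.erase x) + 1 = nul Z E :=
      nul_erase hC.1 (hZ hC.1) hCx
    have h6' : (nul Z (E.erase x) : ℤ) + 1 = nul Z E := by exact_mod_cast h6
    have h7 : 0 ≤ hh Y1 Y2 p F ((supp C).erase x) := by
      push_cast at h2
      linarith
    have hInd : Ind Z ((supp C).erase x) := by
      intro w hw hwx
      rcases hC.2.2 w hw (fun y hy => hwx y (fun h =>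
        (mem_supp.1 (Finset.mem_of_mem_erase h)) hy)) with h | h
      · exact h
      · exfalso
        have := hwx x (by simp)
        rw [h] at this
        exact hCx this
    exact hh_single_aux hZ hF hU hE hconn hser h3 _ _ rfl
      (Finset.mem_erase.2 ⟨hxe.symm, mem_supp.2 hCe⟩)
      ((Finset.erase_subset _ _).trans hCE) hInd h7

/-- reduced nullity over blocks -/
noncomputable def dd (Y : Submodule F2 (β → F2)) (p : β → α) (F : Finset β)
    (A : Finset α) : ℤ :=
  (nul Y (P p F A) : ℤ) - ∑ e ∈ A, (nul Y (P p F {e}) : ℤ)

theorem dd_super (Y : Submodule F2 (β → F2)) (A B : Finset α) :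
    dd Y p F A + dd Y p F B ≤ dd Y p F (A ∪ B) + dd Y p F (A ∩ B) := by
  unfold dd
  rw [P_union, P_inter]
  have h1 := nul_super Y (P p F A) (P p F B)
  have h2 := Finset.sum_union_inter (s₁ := A) (s₂ := B) (f := fun e => (nul Y (P p F {e}) : ℤ))
  zify at h1
  linarith

theorem dd_empty (Y : Submodule F2 (β → F2)) : dd Y p F ∅ = 0 := by
  unfold dd
  rw [P_empty, nul_empty]; simp

theorem dd_single (Y : Submodule F2 (β → F2)) (e : α) : dd Y p F {e} = 0 := by
  unfold dd
  simp

theorem dd_nonneg (Y : Submodule F2 (β → F2)) (A : Finset α) : 0 ≤ dd Y p F A := by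
  induction A using Finset.induction_on with
  | empty => rw [dd_empty]
  | insert x A hx ih =>
    have h := dd_super (p := p) (F := F) Y {x} A
    rw [dd_single, ← Finset.insert_eq, Finset.singleton_inter_of_notMem hx, dd_empty] at h
    linarith

theorem dd_mono (Y : Submodule F2 (β → F2)) {A B : Finset α} (h : A ⊆ B) :
    dd Y p F A ≤ dd Y p F B := by
  have h1 := dd_super (p := p) (F := F) Y A (B \ A)
  rw [Finset.union_sdiff_of_subset h, Finset.inter_sdiff_self, dd_empty] at h1
  have h2 := dd_nonneg (p := p) (F := F) Y (B \ A)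
  linarith

theorem dd_add (hsing : ∀ e ∈ E, hh Y1 Y2 p F {e} = 0) {A : Finset α} (hA : A ⊆ E) :
    dd Y1 p F A + dd Y2 p F A = hh Y1 Y2 p F A := by
  unfold dd
  have h1 : ∑ e ∈ A, (nul Y1 (P p F {e}) : ℤ) + ∑ e ∈ A, (nul Y2 (P p F {e}) : ℤ) =
      ((P p F A).card : ℤ) := by
    rw [card_P, ← Finset.sum_add_distrib]
    push_cast
    apply Finset.sum_congr rfl
    intro e he
    have := hsing e (hA he)
    unfold hh at this
    linarith
  unfold hh
  linarith

/-- vectors whose blocks all lie in Y -/
theorem split_le (Y : Submodule F2 (β → F2)) (A : Finset α)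
    (h : ∀ c ∈ restr Y (P p F A), ∀ e ∈ A, cut (P p F {e}) c ∈ Y) : dd Y p F A ≤ 0 := by
  have key : ∀ B ⊆ A, ∀ c ∈ restr Y (P p F A), cut (P p F B) c ∈ Y := by
    intro B
    induction B using Finset.induction_on with
    | empty =>
      intro _ c _
      have : cut (P p F ∅) c = 0 := by
        funext f; rw [cut_apply, P_empty, if_neg (Finset.notMem_empty f)]; rfl
      rw [this]; exact Y.zero_mem
    | insert x B hx ih =>
      intro hB c hc
      have h1 := ih ((Finset.subset_insert _ _).trans hB) c hc
      have h2 := h c hc x (hB (Finset.mem_insert_self _ _))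
      have : cut (P p F (insert x B)) c = cut (P p F {x}) c + cut (P p F B) c := by
        funext f
        rw [Pi.add_apply, cut_apply, cut_apply, cut_apply]
        simp only [mem_P, Finset.mem_insert, Finset.mem_singleton]
        by_cases hf : f ∈ F
        · by_cases h3 : p f = x
          · simp [hf, h3, hx]
          · simp [hf, h3]
        · simp [hf]
      rw [this]
      exact Y.add_mem h2 h1
  have main : ∀ B ⊆ A, nul Y (P p F B) ≤ ∑ e ∈ B, nul Y (P p F {e}) := by
    intro B
    induction B using Finset.induction_on with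
    | empty => intro _; rw [P_empty, nul_empty]; simp
    | insert x B hx ih =>
      intro hB
      have h1 := ih ((Finset.subset_insert _ _).trans hB)
      rw [Finset.sum_insert hx]
      have h2 : restr Y (P p F (insert x B)) ≤ restr Y (P p F {x}) ⊔ restr Y (P p F B) := by
        intro c hc
        have hcA : c ∈ restr Y (P p F A) := restr_mono Y (P_mono p F hB) hc
        rw [Submodule.mem_sup]
        refine ⟨cut (P p F {x}) c, ⟨h c hcA x (hB (Finset.mem_insert_self _ _)),
          fun f hf => by rw [cut_apply, if_neg hf]⟩, cut (P p F B) c,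
          ⟨key B ((Finset.subset_insert _ _).trans hB) c hcA,
          fun f hf => by rw [cut_apply, if_neg hf]⟩, ?_⟩
        funext f
        rw [Pi.add_apply, cut_apply, cut_apply]
        have hc2 := hc.2 f
        simp only [mem_P, Finset.mem_insert, Finset.mem_singleton] at hc2 ⊢
        by_cases hf : f ∈ F
        · by_cases h3 : p f = x
          · simp [hf, h3, hx]
          · by_cases h4 : p f ∈ B
            · simp [hf, h3, h4]
            · simp only [hf, h3, h4]
              simp only [hf, h3, h4] at hc2
              simpa using (hc2 (by simp)).symm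
        · simp only [hf]
          simp only [hf] at hc2
          simpa using (hc2 (by simp)).symm
      have h3 := Submodule.finrank_mono h2
      have h4 := Submodule.finrank_add_le_finrank_add_finrank (restr Y (P p F {x}))
        (restr Y (P p F B))
      unfold nul at h1 ⊢
      omega
  have := main A (Finset.Subset.refl _)
  unfold dd
  zify at this
  linarith

theorem split_pos (Y : Submodule F2 (β → F2)) {A : Finset α} {c : β → F2}
    (hc : c ∈ restr Y (P p F A)) {e : α} (he : e ∈ A) (hce : cut (P p F {e}) c ∉ Y) :
    dd Y p F (A.erase e) + 1 ≤ dd Y p F A := by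
  have h1 : restr Y (P p F (A.erase e)) ⊔ restr Y (P p F {e}) < restr Y (P p F A) := by
    apply lt_of_le_of_ne
    · apply sup_le
      · exact restr_mono Y (P_mono p F (Finset.erase_subset _ _))
      · exact restr_mono Y (P_mono p F (Finset.singleton_subset_iff.2 he))
    · intro h
      rw [← h, Submodule.mem_sup] at hc
      obtain ⟨a, ha, b, hb, rfl⟩ := hc
      apply hce
      have : cut (P p F {e}) (a + b) = b := by
        rw [map_add]
        have h1 : cut (P p F {e}) a = 0 := by
          funext f
          rw [cut_apply]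
          split
          · rename_i hf
            apply ha.2
            rw [mem_P] at hf ⊢
            rw [Finset.mem_singleton] at hf
            rw [hf.2]
            simp
          · rfl
        rw [h1, zero_add]
        exact cut_of_sup hb.2
      rw [this]
      exact hb.1
  have h2 := Submodule.finrank_lt_finrank_of_lt h1
  have h3 := Submodule.finrank_sup_add_finrank_inf_eq (restr Y (P p F (A.erase e)))
    (restr Y (P p F {e}))
  have h4 : restr Y (P p F (A.erase e)) ⊓ restr Y (P p F {e}) = ⊥ := by
    rw [restr_inf, ← P_inter, eq_bot_iff]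
    intro z hz
    rw [Submodule.mem_bot]
    funext f
    apply hz.2
    rw [mem_P]
    simp
  rw [h4, finrank_bot, add_zero] at h3
  have h5 : nul Y (P p F (A.erase e)) + nul Y (P p F {e}) + 1 ≤ nul Y (P p F A) := by
    unfold nul
    omega
  unfold dd
  have h6 := Finset.add_sum_erase A (fun e => (nul Y (P p F {e}) : ℤ)) he
  zify at h5
  linarith

/-- the space of vectors of `restr Y (P p F E)` splitting at `e` has codimension at most one -/
theorem block_add {Y : Submodule F2 (β → F2)} {e : α} (he : e ∈ E)
    (hd : dd Y p F E ≤ dd Y p F (E.erase e) + 1) {c c' : β → F2}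
    (hc : c ∈ restr Y (P p F E)) (hc' : c' ∈ restr Y (P p F E))
    (h : cut (P p F {e}) c ∉ Y) (h' : cut (P p F {e}) c' ∉ Y) :
    cut (P p F {e}) (c + c') ∈ Y := by
  set W : Submodule F2 (β → F2) := restr Y (P p F E) ⊓ Y.comap (cut (P p F {e})) with hW
  have hWle : restr Y (P p F (E.erase e)) ⊔ restr Y (P p F {e}) ≤ W := by
    apply sup_le
    · intro z hz
      refine ⟨restr_mono Y (P_mono p F (Finset.erase_subset _ _)) hz, ?_⟩
      change cut (P p F {e}) z ∈ Y
      have : cut (P p F {e}) z = 0 := by
        funext f
        rw [cut_apply]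
        split
        · rename_i hf
          apply hz.2
          rw [mem_P] at hf ⊢
          rw [Finset.mem_singleton] at hf
          rw [hf.2]
          simp
        · rfl
      rw [this]; exact Y.zero_mem
    · intro z hz
      refine ⟨restr_mono Y (P_mono p F (Finset.singleton_subset_iff.2 he)) hz, ?_⟩
      change cut (P p F {e}) z ∈ Y
      rw [cut_of_sup hz.2]; exact hz.1
  have h3 := Submodule.finrank_sup_add_finrank_inf_eq (restr Y (P p F (E.erase e)))
    (restr Y (P p F {e}))
  have h4 : restr Y (P p F (E.erase e)) ⊓ restr Y (P p F {e}) = ⊥ := by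
    rw [restr_inf, ← P_inter, eq_bot_iff]
    intro z hz
    rw [Submodule.mem_bot]
    funext f
    apply hz.2
    rw [mem_P]
    simp
  rw [h4, finrank_bot, add_zero] at h3
  have h5 := Submodule.finrank_mono hWle
  have h6 : Module.finrank F2 (restr Y (P p F E)) ≤ Module.finrank F2 W + 1 := by
    unfold dd at hd
    have h7 := Finset.add_sum_erase E (fun e => (nul Y (P p F {e}) : ℤ)) he
    have h8 : (nul Y (P p F E) : ℤ) ≤ nul Y (P p F (E.erase e)) + nul Y (P p F {e}) + 1 := by
      linarith
    have h8' : nul Y (P p F E) ≤ nul Y (P p F (E.erase e)) + nul Y (P p F {e}) + 1 := by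
      exact_mod_cast h8
    unfold nul at h8'
    omega
  have hlt : W < W ⊔ Submodule.span F2 {c} := by
    apply lt_of_le_of_ne le_sup_left
    intro heq
    have : c ∈ W := by
      rw [heq]
      exact Submodule.mem_sup_right (Submodule.mem_span_singleton_self c)
    exact h this.2
  have hle : W ⊔ Submodule.span F2 {c} ≤ restr Y (P p F E) := by
    apply sup_le inf_le_left
    rw [Submodule.span_singleton_le_iff_mem]
    exact hc
  have h9 := Submodule.finrank_lt_finrank_of_lt hlt
  have heq : W ⊔ Submodule.span F2 {c} = restr Y (P p F E) :=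
    Submodule.eq_of_le_of_finrank_le hle (by omega)
  rw [← heq, Submodule.mem_sup] at hc'
  obtain ⟨w, hw, t, ht, hwt⟩ := hc'
  rw [Submodule.mem_span_singleton] at ht
  obtain ⟨s, rfl⟩ := ht
  rcases f2_cases s with hs | hs
  · exfalso
    apply h'
    rw [← hwt, hs, zero_smul, add_zero]
    exact hw.2
  · have : c + c' = w := by
      rw [← hwt, hs, one_smul, add_comm w c, vec_add_cancel]
    rw [this]; exact hw.2

end Main2

end Pool.Agent.Helper263.Recski
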