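import Pool.Agent.Helper263.RMain2

set_option autoImplicit false
set_option linter.unusedSectionVars false

namespace Pool.Agent.Helper263.Recski

open Finset

section Main3

variable {α : Type} [Fintype α] [DecidableEq α]
variable {β : Type} [Fintype β] [DecidableEq β]
variable {Y1 Y2 : Submodule F2 (β → F2)} {Z : Submodule F2 (α → F2)} {E : Finset α}
  {p : β → α} {F : Finset β}

theorem Theta.rot {K z1 z2 : α → F2} (h : Theta Z K z1 z2) : Theta Z z1 K z2 := by
  refine ⟨h.c1, h.cK, h.c2, by rw [add_comm]; exact h.add, ?_⟩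
  intro w hw hwx
  have := h.all w hw (fun x h1 h2 => hwx x h2 h1)
  tauto

theorem Theta.ind {K z1 z2 : α → F2} (h : Theta Z K z1 z2) : Ind Z (supp K ∩ supp z1) := by
  intro w hw hwx
  have hne : z1 ≠ K := by
    intro h'
    apply h.c2.2.1
    rw [← h.add, h']
    exact vec_add_self K
  rcases h.cK.2.2 w hw (fun x hx => hwx x (fun h' => by
    rw [Finset.mem_inter, mem_supp] at h'
    exact h'.1 hx)) with h1 | h1
  · exact h1
  · rcases h.c1.2.2 w hw (fun x hx => hwx x (fun h' => by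
      rw [Finset.mem_inter, mem_supp, mem_supp] at h'
      exact h'.2 hx)) with h2 | h2
    · exact h2
    · exfalso
      exact hne (by rw [← h2, h1])

theorem theta_dd (hZ : Z ≤ supIn E) (hF : F.image p = E)
    (hU : IsUnion (Z.map (pb p F)) Y1 Y2 F) (hsing : ∀ e ∈ E, hh Y1 Y2 p F {e} = 0)
    {K z1 z2 : α → F2} (hT : Theta Z K z1 z2) :
    dd Y1 p F (supp K ∪ supp z1) = dd Y1 p F (supp K) + dd Y1 p F (supp z1) := by
  have hKE : supp K ⊆ E := supp_subset.2 (hZ hT.cK.1)
  have h1E : supp z1 ⊆ E := supp_subset.2 (hZ hT.c1.1)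
  have a1 := dd_super (p := p) (F := F) Y1 (supp K) (supp z1)
  have a2 := dd_super (p := p) (F := F) Y2 (supp K) (supp z1)
  have b1 := dd_nonneg (p := p) (F := F) Y1 (supp K ∩ supp z1)
  have b2 := dd_nonneg (p := p) (F := F) Y2 (supp K ∩ supp z1)
  have c0 : dd Y1 p F (supp K ∩ supp z1) + dd Y2 p F (supp K ∩ supp z1) =
    hh Y1 Y2 p F (supp K ∩ supp z1) := dd_add hsing (Finset.inter_subset_left.trans hKE)
  have c1 := hh_le (p := p) hZ hF hU (supp K ∩ supp z1)
  rw [nul_eq_zero.2 hT.ind] at c1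
  have d0 : dd Y1 p F (supp K ∪ supp z1) + dd Y2 p F (supp K ∪ supp z1) =
    hh Y1 Y2 p F (supp K ∪ supp z1) := dd_add hsing (Finset.union_subset hKE h1E)
  have d1 := hh_le (p := p) hZ hF hU (supp K ∪ supp z1)
  rw [theta_nul hT] at d1
  have e0 : dd Y1 p F (supp K) + dd Y2 p F (supp K) = hh Y1 Y2 p F (supp K) := dd_add hsing hKE
  have e1 : hh Y1 Y2 p F (supp K) = nul Z (supp K) := hh_eq hZ hF hU (cyc_supp hT.cK.1)
  rw [circ_nul hT.cK] at e1
  have f0 : dd Y1 p F (supp z1) + dd Y2 p F (supp z1) = hh Y1 Y2 p F (supp z1) := dd_add hsing h1E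
  have f1 : hh Y1 Y2 p F (supp z1) = nul Z (supp z1) := hh_eq hZ hF hU (cyc_supp hT.c1.1)
  rw [circ_nul hT.c1] at f1
  push_cast at *
  linarith

theorem supp_union_theta {K z1 z2 : α → F2} (hT : Theta Z K z1 z2) :
    supp K ∪ supp z1 = supp K ∪ supp z2 := by
  ext x
  simp only [Finset.mem_union, mem_supp]
  rw [← hT.add, Pi.add_apply]
  generalize K x = s
  generalize z1 x = t
  revert s t
  decide

theorem theta_dd_eq (hZ : Z ≤ supIn E) (hF : F.image p = E)
    (hU : IsUnion (Z.map (pb p F)) Y1 Y2 F) (hsing : ∀ e ∈ E, hh Y1 Y2 p F {e} = 0)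
    {K z1 z2 : α → F2} (hT : Theta Z K z1 z2) :
    dd Y1 p F (supp K) = dd Y1 p F (supp z1) := by
  have h1 := theta_dd hZ hF hU hsing hT.swap
  -- K, z2
  have h2 := theta_dd hZ hF hU hsing hT.rot.swap
  -- z1, z2
  rw [← supp_union_theta hT] at h1
  rw [← supp_union_theta hT.rot, Finset.union_comm] at h2
  linarith

theorem circ_dd (hZ : Z ≤ supIn E) (hF : F.image p = E)
    (hU : IsUnion (Z.map (pb p F)) Y1 Y2 F) (hsing : ∀ e ∈ E, hh Y1 Y2 p F {e} = 0)
    {K : α → F2} (hK : Circ Z K) : dd Y1 p F (supp K) + dd Y2 p F (supp K) = 1 := by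
  have hKE : supp K ⊆ E := supp_subset.2 (hZ hK.1)
  rw [dd_add hsing hKE, hh_eq hZ hF hU (cyc_supp hK.1), circ_nul hK]
  rfl

/-- all circuits have the same colour -/
theorem mono_color (hZ : Z ≤ supIn E) (hF : F.image p = E)
    (hU : IsUnion (Z.map (pb p F)) Y1 Y2 F) (hconn : Conn Z E)
    (hsing : ∀ e ∈ E, hh Y1 Y2 p F {e} = 0) :
    (∀ K, Circ Z K → 1 ≤ dd Y1 p F (supp K)) ∨ (∀ K, Circ Z K → 1 ≤ dd Y2 p F (supp K)) := by
  classical
  by_contra hcon
  push Not at hcon
  obtain ⟨⟨L, hL, hL1⟩, ⟨K0, hK0, hK02⟩⟩ := hcon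
  set ca : (α → F2) → Prop := fun K => 1 ≤ dd Y1 p F (supp K) with hca
  set cb : (α → F2) → Prop := fun K => ¬ (1 ≤ dd Y1 p F (supp K)) with hcb
  have hbL : cb L := not_le.2 hL1
  have haK0 : ca K0 := by
    have h1 := circ_dd hZ hF hU hsing hK0
    change 1 ≤ dd Y1 p F (supp K0)
    linarith [Int.add_one_le_iff.2 hK02]
  have h0 : ∀ K, Circ Z K → ¬ (ca K ∧ cb K) := fun K _ h => h.2 h.1
  have h1 : ∀ K z1 z2, Theta Z K z1 z2 → ca K → ¬ cb z1 ∧ ¬ cb z2 := by
    intro K z1 z2 hT hK
    constructor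
    · intro h
      apply h
      rw [← theta_dd_eq hZ hF hU hsing hT]; exact hK
    · intro h
      apply h
      rw [← theta_dd_eq hZ hF hU hsing hT.swap]; exact hK
  have h2 : ∀ K z1 z2, Theta Z K z1 z2 → ca K → ca z1 ∨ ca z2 := by
    intro K z1 z2 hT hK
    left
    change 1 ≤ dd Y1 p F (supp z1)
    rw [← theta_dd_eq hZ hF hU hsing hT]; exact hK
  set Ua : Finset α := Finset.univ.filter (fun x => ∃ K, Circ Z K ∧ ca K ∧ K x ≠ 0) with hUa
  have memUa : ∀ x, x ∈ Ua ↔ ∃ K, Circ Z K ∧ ca K ∧ K x ≠ 0 := by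
    intro x; simp [hUa]
  have UaE : Ua ⊆ E := by
    intro x hx
    obtain ⟨K, hK, -, hKx⟩ := (memUa x).1 hx
    by_contra h
    exact hKx (hZ hK.1 x h)
  have hcut : ∀ z ∈ Z, cut Ua z ∈ Z := by
    have : Z ≤ Z.comap (cut Ua) := by
      apply circ_induction
      intro K hK
      change cut Ua K ∈ Z
      by_cases hKa : ca K
      · have : cut Ua K = K := by
          apply cut_of_sup
          intro x hx
          by_contra h
          exact hx ((memUa x).2 ⟨K, hK, hKa, h⟩)
        rw [this]; exact hK.1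
      · have : cut Ua K = 0 := by
          funext x
          rw [cut_apply]
          split
          · rename_i hx
            obtain ⟨K', hK', haK', hK'x⟩ := (memUa x).1 hx
            rcases color_disjoint h0 h1 h2 hK' hK haK' hKa x with h | h
            · exact absurd h hK'x
            · exact h
          · rfl
        rw [this]; exact Z.zero_mem
    intro z hz
    exact this hz
  obtain ⟨y, hy⟩ := Function.ne_iff.1 hK0.2.1
  obtain ⟨x, hx⟩ := Function.ne_iff.1 hL.2.1
  have hxE : x ∈ E := by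
    by_contra h
    exact hx (hZ hL.1 x h)
  have hxU : x ∉ Ua := by
    intro h
    obtain ⟨K', hK', haK', hK'x⟩ := (memUa x).1 h
    rcases color_disjoint h0 h1 h2 hK' hL haK' hbL x with h | h
    · exact hK'x h
    · exact hx h
  obtain ⟨z, hz, hz'⟩ := hconn Ua (E \ Ua) (Finset.union_sdiff_of_subset UaE)
    Finset.disjoint_sdiff ⟨y, (memUa y).2 ⟨K0, hK0, haK0, hy⟩⟩
    ⟨x, Finset.mem_sdiff.2 ⟨hxE, hxU⟩⟩
  exact hz' (hcut z hz)

theorem dd_ge (hcirc : ∀ K, Circ Z K → 1 ≤ dd Y1 p F (supp K))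
    (hle : ∀ A ⊆ E, dd Y1 p F A ≤ nul Z A) :
    ∀ (n : ℕ) (A : Finset α), A.card = n → A ⊆ E → (nul Z A : ℤ) ≤ dd Y1 p F A := by
  classical
  intro n
  induction n with
  | zero =>
    intro A hA _
    rw [Finset.card_eq_zero] at hA
    rw [hA, nul_empty, dd_empty]
    rfl
  | succ n ih =>
    intro A hA hAE
    by_cases h0 : Ind Z A
    · rw [nul_eq_zero.2 h0]
      exact_mod_cast dd_nonneg Y1 A
    · unfold Ind at h0
      push Not at h0
      obtain ⟨z, hz, hzA, hz0⟩ := h0
      obtain ⟨C, hC, hCz⟩ := exists_circ' hz hz0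
      have hCA : ∀ x ∉ A, C x = 0 := fun x hx => hCz x (hzA x hx)
      have hCA' : supp C ⊆ A := supp_subset.2 hCA
      obtain ⟨x, hx⟩ := Function.ne_iff.1 hC.2.1
      have hxC : x ∈ supp C := mem_supp.2 hx
      have h1 := nul_erase hC.1 hCA hx
      have h2 := ih (A.erase x) (by rw [Finset.card_erase_of_mem (hCA' hxC), hA]; rfl)
        ((Finset.erase_subset _ _).trans hAE)
      have h3 := dd_super (p := p) (F := F) Y1 (A.erase x) (supp C)
      have e1 : A.erase x ∪ supp C = A := by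
        apply Finset.Subset.antisymm
        · exact Finset.union_subset (Finset.erase_subset _ _) hCA'
        · intro y hy
          rw [Finset.mem_union, Finset.mem_erase]
          by_cases hyx : y = x
          · right; rw [hyx]; exact hxC
          · left; exact ⟨hyx, hy⟩
      have e2 : A.erase x ∩ supp C = (supp C).erase x := by
        ext y
        simp only [Finset.mem_inter, Finset.mem_erase]
        constructor
        · rintro ⟨⟨h, -⟩, h'⟩; exact ⟨h, h'⟩
        · rintro ⟨h, h'⟩; exact ⟨⟨h, hCA' h'⟩, h'⟩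
      rw [e1, e2] at h3
      have h4 := hle ((supp C).erase x) ((Finset.erase_subset _ _).trans (hCA'.trans hAE))
      have h5 : nul Z ((supp C).erase x) = 0 := by
        have := nul_erase hC.1 (supp_subset.1 (Finset.Subset.refl _)) hx
        rw [circ_nul hC] at this
        omega
      rw [h5] at h4
      have h6 := hcirc C hC
      have h1' : (nul Z (A.erase x) : ℤ) + 1 = nul Z A := by exact_mod_cast h1
      push_cast at h4
      linarith

end Main3

end Pool.Agent.Helper263.Recski
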