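import Pool.Agent.Helper263.RMain3

set_option autoImplicit false
set_option linter.unusedSectionVars false

namespace Pool.Agent.Helper263.Recski

open Finset

section Main4

variable {α : Type} [Fintype α] [DecidableEq α]
variable {β : Type} [Fintype β] [DecidableEq β]
variable {Y1 : Submodule F2 (β → F2)} {Z : Submodule F2 (α → F2)} {E : Finset α}
  {p : β → α} {F : Finset β}

/-- If the reduced nullity of the graphic `Y1` over the blocks is the nullity of `Z`,
then `Z` is graphic: it is a minor. -/
theorem graphic_of_dd {V : Type} (u1 w1 : β → V) (hY : ∀ c, c ∈ Y1 ↔ bd u1 w1 c = 0)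
    (hZ : Z ≤ supIn E) (hF : F.image p = E) (hcyc : ∀ e ∈ E, ∃ z ∈ Z, z e ≠ 0)
    (hdd : ∀ A ⊆ E, dd Y1 p F A = nul Z A) : Graphic Z E := by
  classical
  by_cases hE0 : E = ∅
  · exact graphic_small Z E hZ (by rw [hE0]; simp)
  have hFE : ∀ f ∈ F, p f ∈ E := by
    intro f hf
    rw [← hF]
    exact Finset.mem_image_of_mem p hf
  have : Nonempty β := by
    obtain ⟨e, he⟩ := Finset.nonempty_iff_ne_empty.2 hE0
    rw [← hF] at he
    obtain ⟨f, -, -⟩ := Finset.mem_image.1 he
    exact ⟨f⟩
  -- codimension one property
  have hblock : ∀ e ∈ E, ∀ c ∈ restr Y1 (P p F E), ∀ c' ∈ restr Y1 (P p F E),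
      cut (P p F {e}) c ∉ Y1 → cut (P p F {e}) c' ∉ Y1 → cut (P p F {e}) (c + c') ∈ Y1 := by
    intro e he c hc c' hc' h h'
    refine block_add he ?_ hc hc' h h'
    rw [hdd E (Finset.Subset.refl _), hdd _ (Finset.erase_subset _ _)]
    have := nul_insert_le Z (E.erase e) e
    rw [Finset.insert_erase he] at this
    exact_mod_cast this
  -- existence of a vector not splitting at e
  have hex : ∀ e ∈ E, ∃ c ∈ restr Y1 (P p F E), cut (P p F {e}) c ∉ Y1 := by
    intro e he
    by_contra hcon
    push Not at hcon
    have h1 : restr Y1 (P p F E) ≤ restr Y1 (P p F (E.erase e)) ⊔ restr Y1 (P p F {e}) := by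
      intro c hc
      have h2 := hcon c hc
      rw [Submodule.mem_sup]
      refine ⟨cut (P p F (E.erase e)) c, ⟨?_, fun f hf => by rw [cut_apply, if_neg hf]⟩,
        cut (P p F {e}) c, ⟨h2, fun f hf => by rw [cut_apply, if_neg hf]⟩, ?_⟩
      · have h3 : cut (P p F (E.erase e)) c = c + cut (P p F {e}) c := by
          funext f
          rw [Pi.add_apply, cut_apply, cut_apply]
          have hcf := hc.2 f
          simp only [mem_P, Finset.mem_erase, Finset.mem_singleton] at hcf ⊢
          by_cases hf : f ∈ F
          · by_cases h4 : p f = e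
            · simp [hf, h4, f2_add_self]
            · by_cases h5 : p f ∈ E
              · simp [hf, h4, h5]
              · simp [hf, h4, h5, hcf]
          · simp [hf, hcf]
        rw [h3]
        exact Y1.add_mem hc.1 h2
      · funext f
        rw [Pi.add_apply, cut_apply, cut_apply]
        have hcf := hc.2 f
        simp only [mem_P, Finset.mem_erase, Finset.mem_singleton] at hcf ⊢
        by_cases hf : f ∈ F
        · by_cases h4 : p f = e
          · simp [hf, h4]
          · by_cases h5 : p f ∈ E
            · simp [hf, h4, h5]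
            · simp [hf, h4, h5, hcf]
        · simp [hf, hcf]
    have h2 := Submodule.finrank_mono h1
    have h3 := Submodule.finrank_add_le_finrank_add_finrank (restr Y1 (P p F (E.erase e)))
        (restr Y1 (P p F {e}))
    have h4 := hdd E (Finset.Subset.refl _)
    have h5 := hdd _ (Finset.erase_subset e E)
    obtain ⟨z, hz, hze⟩ := hcyc e he
    have h6 := nul_erase hz (hZ hz) hze
    unfold dd at h4 h5
    have h7 := Finset.add_sum_erase E (fun e => (nul Y1 (P p F {e}) : ℤ)) he
    have h8 : nul Y1 (P p F E) ≤ nul Y1 (P p F (E.erase e)) + nul Y1 (P p F {e}) := by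
      unfold nul; omega
    zify at h8 h6
    linarith
  -- choose vectors with minimal support on the block
  have hmin : ∀ e ∈ E, ∃ c ∈ restr Y1 (P p F E), cut (P p F {e}) c ∉ Y1 ∧
      ∀ t ∈ Y1, (∀ f, cut (P p F {e}) c f = 0 → t f = 0) → t = 0 := by
    intro e he
    obtain ⟨c0, hc0, hc0e⟩ := hex e he
    have : ∃ n, ∃ c ∈ restr Y1 (P p F E), cut (P p F {e}) c ∉ Y1 ∧
      (supp (cut (P p F {e}) c)).card = n := ⟨_, c0, hc0, hc0e, rfl⟩
    obtain ⟨c, hc, hce, hcn⟩ := Nat.find_spec this
    refine ⟨c, hc, hce, ?_⟩
    intro t ht htc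
    by_contra ht0
    have h1 : t ∈ restr Y1 (P p F E) := by
      refine ⟨ht, fun f hf => htc f ?_⟩
      rw [cut_apply, if_neg]
      intro h
      apply hf
      rw [mem_P] at *
      rw [Finset.mem_singleton] at h
      exact ⟨h.1, by rw [h.2]; exact he⟩
    have htcut : cut (P p F {e}) t = t := by
      apply cut_of_sup
      intro f hf
      apply htc
      rw [cut_apply, if_neg hf]
    have h2 : c + t ∈ restr Y1 (P p F E) := Submodule.add_mem _ hc h1
    have h3 : cut (P p F {e}) (c + t) ∉ Y1 := by
      rw [map_add, htcut]
      intro h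
      apply hce
      have : cut (P p F {e}) c = cut (P p F {e}) c + t + t := by
        rw [add_assoc, vec_add_self, add_zero]
      rw [this]
      exact Y1.add_mem h ht
    have h4 : (supp (cut (P p F {e}) (c + t))).card < Nat.find this := by
      rw [map_add, htcut, supp_add_of_subset htc, ← hcn]
      apply Finset.card_lt_card
      refine ⟨Finset.sdiff_subset, fun h => ?_⟩
      obtain ⟨f, hf⟩ := Function.ne_iff.1 ht0
      have hft : f ∈ supp t := mem_supp.2 hf
      have hfc : f ∈ supp (cut (P p F {e}) c) := mem_supp.2 (fun h' => hf (htc f h'))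
      exact (Finset.mem_sdiff.1 (h hfc)).2 hft
    exact Nat.find_min this h4 ⟨c + t, h2, h3, rfl⟩
  choose! cc hcc using hmin
  -- the combined vector
  set y : β → F2 := fun f => if f ∈ F then cc (p f) f else 0 with hy
  have hyF : ∀ f ∉ F, y f = 0 := fun f hf => by simp [hy, hf]
  have hcuty : ∀ e, cut (P p F {e}) y = cut (P p F {e}) (cc e) := by
    intro e
    funext f
    rw [cut_apply, cut_apply]
    split
    · rename_i hf
      rw [mem_P, Finset.mem_singleton] at hf
      simp [hy, hf.1, hf.2]
    · rfl
  -- chosen elements
  have hs : ∀ e ∈ E, ∃ f ∈ F, p f = e ∧ y f ≠ 0 := by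
    intro e he
    have h1 := (hcc e he).2.1
    have h2 : cut (P p F {e}) (cc e) ≠ 0 := by
      intro h; rw [h] at h1; exact h1 Y1.zero_mem
    obtain ⟨f, hf⟩ := Function.ne_iff.1 h2
    rw [cut_apply] at hf
    by_cases hfP : f ∈ P p F {e}
    · rw [if_pos hfP] at hf
      rw [mem_P, Finset.mem_singleton] at hfP
      refine ⟨f, hfP.1, hfP.2, ?_⟩
      simp only [hy, hfP.1, if_true, hfP.2]
      exact hf
    · rw [if_neg hfP] at hf
      exact absurd rfl hf
  choose! s hs using hs
  set K : Finset β := F.filter (fun f => y f ≠ 0 ∧ f ≠ s (p f)) with hK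
  obtain ⟨V', u', w', hV'⟩ := bd_contract u1 w1 K
  -- the embedding Psi
  set Psi : (α → F2) →ₗ[F2] (β → F2) :=
    { toFun := fun z => fun f => z (p f) * y f
      map_add' := by
        intro a b; funext f; simp [add_mul]
      map_smul' := by
        intro a b; funext f; simp [mul_assoc] } with hPsi
  have Psi_apply : ∀ z f, Psi z f = z (p f) * y f := fun z f => rfl
  have Psi_restr : ∀ z : α → F2, ∀ A : Finset α, (∀ x ∉ A, z x = 0) → ∀ f ∉ P p F A,
      Psi z f = 0 := by
    intro z A hz f hf
    rw [Psi_apply]
    by_cases hfF : f ∈ F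
    · have : p f ∉ A := fun h => hf (mem_P.2 ⟨hfF, h⟩)
      rw [hz _ this, zero_mul]
    · rw [hyF f hfF, mul_zero]
  have cut_Psi : ∀ z e, cut (P p F {e}) (Psi z) = z e • cut (P p F {e}) (cc e) := by
    intro z e
    rw [← hcuty e]
    funext f
    rw [Pi.smul_apply, cut_apply, cut_apply]
    split
    · rename_i hf
      rw [mem_P, Finset.mem_singleton] at hf
      rw [Psi_apply, hf.2, smul_eq_mul]
    · simp
  -- summing blocks
  have blocks : ∀ A ⊆ E, ∀ c : β → F2, (∀ f ∉ P p F A, c f = 0) →
      (∀ e ∈ A, cut (P p F {e}) c ∈ Y1) → c ∈ Y1 := by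
    intro A
    induction A using Finset.induction_on with
    | empty =>
      intro _ c hc _
      have : c = 0 := by
        funext f; exact hc f (by rw [P_empty]; simp)
      rw [this]; exact Y1.zero_mem
    | insert x A hx ih =>
      intro hA c hc hcY
      have h1 : cut (P p F A) c ∈ Y1 := by
        apply ih ((Finset.subset_insert _ _).trans hA)
        · intro f hf; rw [cut_apply, if_neg hf]
        · intro e he
          have : cut (P p F {e}) (cut (P p F A) c) = cut (P p F {e}) c := by
            funext f
            rw [cut_apply, cut_apply, cut_apply]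
            by_cases hf : f ∈ P p F {e}
            · have hf' : f ∈ P p F A := by
                rw [mem_P] at hf ⊢
                rw [Finset.mem_singleton] at hf
                exact ⟨hf.1, by rw [hf.2]; exact he⟩
              simp only [if_pos hf, if_pos hf']
            · simp only [if_neg hf]
          rw [this]
          exact hcY e (Finset.mem_insert_of_mem he)
      have h2 := hcY x (Finset.mem_insert_self _ _)
      have h3 : c = cut (P p F {x}) c + cut (P p F A) c := by
        funext f
        rw [Pi.add_apply, cut_apply, cut_apply]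
        have hcf := hc f
        simp only [mem_P, Finset.mem_insert, Finset.mem_singleton] at hcf ⊢
        by_cases hf : f ∈ F
        · by_cases h4 : p f = x
          · simp [hf, h4, hx]
          · by_cases h5 : p f ∈ A
            · simp [hf, h4, h5]
            · simp [hf, h4, h5, hcf]
        · simp [hf, hcf]
      rw [h3]
      exact Y1.add_mem h2 h1
  -- circuits of Z map into Y1
  have hcircPsi : ∀ C, Circ Z C → Psi C ∈ Y1 := by
    intro C hC
    have hCE : supp C ⊆ E := supp_subset.2 (hZ hC.1)
    have h1 : dd Y1 p F (supp C) = 1 := by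
      rw [hdd _ hCE, circ_nul hC]; rfl
    have h2 : ∃ c ∈ restr Y1 (P p F (supp C)), ∃ e ∈ supp C, cut (P p F {e}) c ∉ Y1 := by
      by_contra hcon
      push Not at hcon
      have := split_le Y1 (supp C) hcon
      omega
    obtain ⟨c, hc, e0, he0, hce0⟩ := h2
    have hcE : c ∈ restr Y1 (P p F E) := restr_mono Y1 (P_mono p F hCE) hc
    set ε : α → F2 := fun e => if e ∈ supp C ∧ cut (P p F {e}) c ∉ Y1 then 1 else 0 with hε
    have hεC : ∀ x ∉ supp C, ε x = 0 := by
      intro x hx; simp [hε, hx]
    have hεe0 : ε e0 = 1 := by simp [hε, he0, hce0]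
    have h3 : c + Psi ε ∈ Y1 := by
      apply blocks (supp C) hCE
      · intro f hf
        rw [Pi.add_apply, hc.2 f hf, Psi_restr ε _ hεC f hf, add_zero]
      · intro e he
        rw [map_add, cut_Psi]
        by_cases hce : cut (P p F {e}) c ∈ Y1
        · have : ε e = 0 := by simp [hε, hce]
          rw [this, zero_smul, add_zero]; exact hce
        · have : ε e = 1 := by simp [hε, hce, he]
          rw [this, one_smul, ← map_add]
          exact hblock e (hCE he) c hcE (cc e) (hcc e (hCE he)).1 hce (hcc e (hCE he)).2.1
    have h4 : Psi ε ∈ Y1 := by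
      have : Psi ε = c + (c + Psi ε) := by rw [vec_add_cancel]
      rw [this]; exact Y1.add_mem hc.1 h3
    -- show ε = C
    have hεsub : supp ε ⊆ supp C := supp_subset.2 hεC
    have h5 : 1 ≤ dd Y1 p F (supp ε) := by
      have h6 : Psi ε ∈ restr Y1 (P p F (supp ε)) :=
        ⟨h4, Psi_restr ε _ (supp_subset.1 (Finset.Subset.refl _))⟩
      have h7 : e0 ∈ supp ε := by rw [mem_supp, hεe0]; decide
      have h8 := split_pos Y1 h6 h7 (by
        rw [cut_Psi, hεe0, one_smul]
        exact (hcc e0 (hCE he0)).2.1)
      have h9 := dd_nonneg (p := p) (F := F) Y1 ((supp ε).erase e0)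
      linarith
    rw [hdd _ (hεsub.trans hCE)] at h5
    have h10 : ¬ Ind Z (supp ε) := by
      rw [← nul_eq_zero]
      omega
    unfold Ind at h10
    push Not at h10
    obtain ⟨w, hw, hwε, hw0⟩ := h10
    have hwC : w = C := by
      rcases hC.2.2 w hw (fun x hx => hwε x (fun h => (mem_supp.1 (hεsub h)) hx)) with h | h
      · exact absurd h hw0
      · exact h
    have hεC' : ε = C := by
      rw [← supp_eq_iff]
      apply Finset.Subset.antisymm hεsub
      rw [supp_subset, ← hwC]
      exact hwε
    rw [← hεC']; exact h4
  have hZPsi : ∀ z ∈ Z, Psi z ∈ Y1 := by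
    have : Z ≤ Y1.comap Psi := circ_induction _ hcircPsi
    intro z hz
    exact this hz
  have hPsiZ : ∀ (n : ℕ) (z : α → F2), (supp z).card = n → (∀ x ∉ E, z x = 0) →
      Psi z ∈ Y1 → z ∈ Z := by
    intro n
    induction n using Nat.strong_induction_on with
    | _ n ih =>
      intro z hzn hzE hzY
      by_cases h0 : z = 0
      · rw [h0]; exact Z.zero_mem
      · obtain ⟨e0, he0⟩ := Function.ne_iff.1 h0
        have he0E : e0 ∈ E := by
          by_contra h
          exact he0 (hzE e0 h)
        have hsub : supp z ⊆ E := supp_subset.2 hzE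
        have h5 : 1 ≤ dd Y1 p F (supp z) := by
          have h6 : Psi z ∈ restr Y1 (P p F (supp z)) :=
            ⟨hzY, Psi_restr z _ (supp_subset.1 (Finset.Subset.refl _))⟩
          have h8 := split_pos Y1 h6 (mem_supp.2 he0) (by
            rw [cut_Psi, f2_ne_zero.1 he0, one_smul]
            exact (hcc e0 he0E).2.1)
          have h9 := dd_nonneg (p := p) (F := F) Y1 ((supp z).erase e0)
          linarith
        rw [hdd _ hsub] at h5
        have h10 : ¬ Ind Z (supp z) := by
          rw [← nul_eq_zero]
          omega
        unfold Ind at h10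
        push Not at h10
        obtain ⟨w, hw, hwz, hw0⟩ := h10
        have hwz' : ∀ x, z x = 0 → w x = 0 := fun x hx => hwz x (fun h => (mem_supp.1 h) hx)
        have h11 : (supp (z + w)).card < n := by
          rw [supp_add_of_subset hwz', ← hzn]
          apply Finset.card_lt_card
          refine ⟨Finset.sdiff_subset, fun h => ?_⟩
          obtain ⟨x, hx⟩ := Function.ne_iff.1 hw0
          have hxw : x ∈ supp w := mem_supp.2 hx
          have hxz : x ∈ supp z := mem_supp.2 (fun h' => hx (hwz' x h'))
          exact (Finset.mem_sdiff.1 (h hxz)).2 hxw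
        have h12 := ih _ h11 (z + w) rfl (fun x hx => by
          rw [Pi.add_apply, hzE x hx, hwz' x (hzE x hx), add_zero]) (by
          rw [map_add]; exact Y1.add_mem hzY (hZPsi w hw))
        have : z = (z + w) + w := by rw [add_assoc, vec_add_self, add_zero]
        rw [this]; exact Z.add_mem h12 hw
  -- the graph
  refine ⟨V', fun e => u' (s e), fun e => w' (s e), fun z => ?_⟩
  set ζ : β → F2 := fun f => if f ∈ F ∧ p f ∈ E ∧ f = s (p f) then z (p f) else 0 with hζ
  have hbd : (∀ x ∉ E, z x = 0) → bd (fun e => u' (s e)) (fun e => w' (s e)) z = bd u' w' ζ := by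
    intro hzE
    rw [bd_apply, bd_apply]
    have h1 : ∑ x, z x • (Finsupp.single (u' (s x)) (1 : F2) + Finsupp.single (w' (s x)) 1) =
        ∑ x ∈ E, z x • (Finsupp.single (u' (s x)) (1 : F2) + Finsupp.single (w' (s x)) 1) := by
      symm
      apply Finset.sum_subset (Finset.subset_univ E)
      intro x _ hx
      rw [hzE x hx, zero_smul]
    have h2 : ∑ f, ζ f • (Finsupp.single (u' f) (1 : F2) + Finsupp.single (w' f) 1) =
        ∑ f ∈ E.image s, ζ f • (Finsupp.single (u' f) (1 : F2) + Finsupp.single (w' f) 1) := by
      symm
      apply Finset.sum_subset (Finset.subset_univ _)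
      intro f _ hf
      have : ζ f = 0 := by
        simp only [hζ]
        rw [if_neg]
        rintro ⟨-, h, h'⟩
        apply hf
        rw [Finset.mem_image]
        exact ⟨p f, h, h'.symm⟩
      rw [this, zero_smul]
    rw [h1, h2, Finset.sum_image]
    · apply Finset.sum_congr rfl
      intro x hx
      have : ζ (s x) = z x := by
        simp only [hζ]
        rw [if_pos]
        · rw [(hs x hx).2.1]
        · refine ⟨(hs x hx).1, ?_, ?_⟩
          · rw [(hs x hx).2.1]; exact hx
          · rw [(hs x hx).2.1]
      rw [this]
    · intro a ha b hb hab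
      rw [← (hs a ha).2.1, ← (hs b hb).2.1, hab]
  constructor
  · intro hz
    have hzE := hZ hz
    refine ⟨hzE, ?_⟩
    rw [hbd hzE, hV']
    refine ⟨Psi z + ζ, ?_, ?_⟩
    · intro f hf
      rw [Pi.add_apply, Psi_apply]
      simp only [hK, Finset.mem_filter, not_and, not_not] at hf
      by_cases hfF : f ∈ F
      · by_cases hyf : y f = 0
        · have hζ0 : ζ f = 0 := by
            simp only [hζ]
            rw [if_neg]
            rintro ⟨-, h1, h2⟩
            apply (hs (p f) h1).2.2
            rw [← h2]; exact hyf
          rw [hyf, hζ0, mul_zero, add_zero]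
        · have h3 := hf hfF hyf
          by_cases hpE : p f ∈ E
          · have hζ1 : ζ f = z (p f) := by
              simp only [hζ]
              rw [if_pos ⟨hfF, hpE, h3⟩]
            rw [hζ1, f2_ne_zero.1 hyf, mul_one, f2_add_self]
          · have hζ0 : ζ f = 0 := by
              simp only [hζ]
              rw [if_neg]
              rintro ⟨-, h1, -⟩
              exact hpE h1
            rw [hzE _ hpE, hζ0, zero_mul, add_zero]
      · have hζ0 : ζ f = 0 := by
          simp only [hζ]
          rw [if_neg]
          rintro ⟨h1, -, -⟩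
          exact hfF h1
        rw [hyF f hfF, hζ0, mul_zero, add_zero]
    · have : ζ + (Psi z + ζ) = Psi z := by
        rw [add_comm (Psi z) ζ, vec_add_cancel]
      rw [this, ← hY]
      exact hZPsi z hz
  · rintro ⟨hzE, hb⟩
    rw [hbd hzE, hV'] at hb
    obtain ⟨k, hk, hkb⟩ := hb
    rw [← hY] at hkb
    apply hPsiZ _ z rfl hzE
    -- show Psi z = ζ + k
    have hζk : ∀ f ∉ P p F E, (ζ + k) f = 0 ∨ f ∈ F := by
      intro f _
      by_cases hfF : f ∈ F
      · exact Or.inr hfF
      · left
        have hζ0 : ζ f = 0 := by
          simp only [hζ]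
          rw [if_neg]
          rintro ⟨h1, -, -⟩
          exact hfF h1
        rw [Pi.add_apply, hζ0, hk f (fun h => hfF (Finset.mem_filter.1 h).1), add_zero]
    set c : β → F2 := ζ + k with hc
    have hcY : c ∈ Y1 := hkb
    · have hcres : c ∈ restr Y1 (P p F E) := by
        refine ⟨hcY, fun f hf => ?_⟩
        rcases hζk f hf with h | h
        · exact h
        · exact absurd (mem_P.2 ⟨h, hFE f h⟩) hf
      have hblk : ∀ e ∈ E, cut (P p F {e}) c = z e • cut (P p F {e}) (cc e) := by
        intro e he
        obtain ⟨hce1, hce2, hce3⟩ := hcc e he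
        -- support of cut c inside support of cut cc
        have hsub : ∀ f, cut (P p F {e}) (cc e) f = 0 → cut (P p F {e}) c f = 0 := by
          intro f hf
          rw [← hcuty e, cut_apply] at hf
          rw [cut_apply]
          by_cases hfP : f ∈ P p F {e}
          · rw [if_pos hfP] at hf ⊢
            rw [mem_P, Finset.mem_singleton] at hfP
            have hζ0 : ζ f = 0 := by
              simp only [hζ]
              rw [if_neg]
              rintro ⟨-, h1, h2⟩
              apply (hs (p f) h1).2.2
              rw [← h2]; exact hf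
            have hk0 : k f = 0 := by
              apply hk
              intro h
              exact (Finset.mem_filter.1 h).2.1 hf
            rw [hc, Pi.add_apply, hζ0, hk0, add_zero]
          · rw [if_neg hfP]
        have hse : cut (P p F {e}) c (s e) = z e := by
          have hseP : s e ∈ P p F {e} := by
            rw [mem_P, Finset.mem_singleton]
            exact ⟨(hs e he).1, (hs e he).2.1⟩
          rw [cut_apply, if_pos hseP, hc, Pi.add_apply]
          have h1 : ζ (s e) = z e := by
            simp only [hζ]
            rw [if_pos]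
            · rw [(hs e he).2.1]
            · refine ⟨(hs e he).1, ?_, ?_⟩
              · rw [(hs e he).2.1]; exact he
              · rw [(hs e he).2.1]
          have h2 : k (s e) = 0 := by
            apply hk
            intro h
            apply (Finset.mem_filter.1 h).2.2
            rw [(hs e he).2.1]
          rw [h1, h2, add_zero]
        have hcs : cut (P p F {e}) (cc e) (s e) = 1 := by
          have hseP : s e ∈ P p F {e} := by
            rw [mem_P, Finset.mem_singleton]
            exact ⟨(hs e he).1, (hs e he).2.1⟩
          rw [← hcuty e, cut_apply, if_pos hseP]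
          exact f2_ne_zero.1 (hs e he).2.2
        by_cases hcase : cut (P p F {e}) c ∈ Y1
        · have h0 := hce3 _ hcase hsub
          have : z e = 0 := by
            rw [← hse, h0]; rfl
          rw [h0, this, zero_smul]
        · have h1 := hblock e he c hcres (cc e) hce1 hcase hce2
          have h2 := hce3 _ h1 (by
            intro f hf
            rw [map_add, Pi.add_apply, hf, hsub f hf, add_zero])
          rw [map_add] at h2
          have h3 : cut (P p F {e}) c = cut (P p F {e}) (cc e) := by
            calc cut (P p F {e}) c = (cut (P p F {e}) c + cut (P p F {e}) (cc e)) +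
                  cut (P p F {e}) (cc e) := by rw [add_assoc, vec_add_self, add_zero]
              _ = cut (P p F {e}) (cc e) := by rw [h2, zero_add]
          have : z e = 1 := by
            rw [← hse, h3]; exact hcs
          rw [h3, this, one_smul]
      have : Psi z = c := by
        funext f
        by_cases hfF : f ∈ F
        · have hfP : f ∈ P p F {p f} := by
            rw [mem_P, Finset.mem_singleton]; exact ⟨hfF, rfl⟩
          have h1 := congrFun (hblk (p f) (hFE f hfF)) f
          rw [← cut_Psi, cut_apply, cut_apply, if_pos hfP, if_pos hfP] at h1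
          exact h1.symm
        · rw [Psi_apply, hyF f hfF, mul_zero]
          rcases hζk f (fun h => hfF (mem_P.1 h).1) with h | h
          · exact h.symm
          · exact absurd h hfF
      rw [this]; exact hcY

end Main4

end Pool.Agent.Helper263.Recski
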