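import Pool.Agent.Helper263.RBasic

set_option autoImplicit false
set_option linter.unusedSectionVars false

namespace Pool.Agent.Helper263.Recski

open Finset

section Union

variable {β : Type} [Fintype β] [DecidableEq β]

/-- Rado-type splitting lemma for two submodular functions. -/
theorem split_aux (r1 r2 : Finset β → ℤ)
    (s1 : ∀ A B, r1 (A ∪ B) + r1 (A ∩ B) ≤ r1 A + r1 B)
    (s2 : ∀ A B, r2 (A ∪ B) + r2 (A ∩ B) ≤ r2 A + r2 B)
    (z1 : r1 ∅ = 0) (z2 : r2 ∅ = 0) (I : Finset β) :
    ∀ (n : ℕ) (S1 S2 : Finset β), (S1 ∩ S2).card = n → S1 ∪ S2 = I →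
      (∀ Y ⊆ I, (Y.card : ℤ) ≤ r1 (Y ∩ S1) + r2 (Y ∩ S2)) →
      ∃ I1 I2, I1 ∪ I2 = I ∧ (I1.card : ℤ) ≤ r1 I1 ∧ (I2.card : ℤ) ≤ r2 I2 := by
  intro n
  induction n with
  | zero =>
    intro S1 S2 hc hu h
    have hd : S1 ∩ S2 = ∅ := Finset.card_eq_zero.1 hc
    refine ⟨S1, S2, hu, ?_, ?_⟩
    · have := h S1 (by rw [← hu]; exact subset_union_left)
      rw [Finset.inter_self, hd, z2, add_zero] at this
      exact this
    · have := h S2 (by rw [← hu]; exact subset_union_right)
      rw [Finset.inter_self, Finset.inter_comm, hd, z1, zero_add] at this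
      exact this
  | succ n ih =>
    intro S1 S2 hc hu h
    obtain ⟨x, hx⟩ : (S1 ∩ S2).Nonempty := by
      rw [← Finset.card_pos]; omega
    rw [Finset.mem_inter] at hx
    obtain ⟨hx1, hx2⟩ := hx
    have hcard1 : (S1.erase x ∩ S2).card = n := by
      rw [Finset.erase_inter, Finset.card_erase_of_mem (Finset.mem_inter.2 ⟨hx1, hx2⟩), hc]
      rfl
    have hcard2 : (S1 ∩ S2.erase x).card = n := by
      rw [Finset.inter_erase, Finset.card_erase_of_mem (Finset.mem_inter.2 ⟨hx1, hx2⟩), hc]
      rfl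
    have hu1 : S1.erase x ∪ S2 = I := by
      rw [← hu]
      ext y
      simp only [Finset.mem_union, Finset.mem_erase]
      constructor
      · rintro (h | h)
        · exact Or.inl h.2
        · exact Or.inr h
      · rintro (h | h)
        · by_cases hy : y = x
          · subst hy; exact Or.inr hx2
          · exact Or.inl ⟨hy, h⟩
        · exact Or.inr h
    have hu2 : S1 ∪ S2.erase x = I := by
      rw [← hu]
      ext y
      simp only [Finset.mem_union, Finset.mem_erase]
      constructor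
      · rintro (h | h)
        · exact Or.inl h
        · exact Or.inr h.2
      · rintro (h | h)
        · exact Or.inl h
        · by_cases hy : y = x
          · subst hy; exact Or.inl hx1
          · exact Or.inr ⟨hy, h⟩
    by_cases hA : ∀ Y ⊆ I, (Y.card : ℤ) ≤ r1 (Y ∩ S1.erase x) + r2 (Y ∩ S2)
    · exact ih _ _ hcard1 hu1 hA
    by_cases hB : ∀ Y ⊆ I, (Y.card : ℤ) ≤ r1 (Y ∩ S1) + r2 (Y ∩ S2.erase x)
    · exact ih _ _ hcard2 hu2 hB
    exfalso
    push Not at hA hB
    obtain ⟨Y1, hY1I, hY1⟩ := hA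
    obtain ⟨Y2, hY2I, hY2⟩ := hB
    have hxY1 : x ∈ Y1 := by
      by_contra hx
      have : Y1 ∩ S1.erase x = Y1 ∩ S1 := by
        rw [Finset.inter_erase, Finset.erase_eq_of_notMem]
        simp [hx]
      rw [this] at hY1
      exact absurd (h Y1 hY1I) (not_le.2 hY1)
    have hxY2 : x ∈ Y2 := by
      by_contra hx
      have : Y2 ∩ S2.erase x = Y2 ∩ S2 := by
        rw [Finset.inter_erase, Finset.erase_eq_of_notMem]
        simp [hx]
      rw [this] at hY2
      exact absurd (h Y2 hY2I) (not_le.2 hY2)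
    have e1 := s1 (Y1 ∩ S1.erase x) (Y2 ∩ S1)
    have e2 := s2 (Y1 ∩ S2) (Y2 ∩ S2.erase x)
    have a1 : (Y1 ∩ S1.erase x) ∪ (Y2 ∩ S1) = (Y1 ∪ Y2) ∩ S1 := by
      ext y
      simp only [Finset.mem_union, Finset.mem_inter, Finset.mem_erase]
      constructor
      · rintro (h | h)
        · exact ⟨Or.inl h.1, h.2.2⟩
        · exact ⟨Or.inr h.1, h.2⟩
      · rintro ⟨h | h, h'⟩
        · by_cases hy : y = x
          · subst hy; exact Or.inr ⟨hxY2, h'⟩
          · exact Or.inl ⟨h, hy, h'⟩
        · exact Or.inr ⟨h, h'⟩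
    have a2 : (Y1 ∩ S1.erase x) ∩ (Y2 ∩ S1) = ((Y1 ∩ Y2).erase x) ∩ S1 := by
      ext y
      simp only [Finset.mem_inter, Finset.mem_erase]
      tauto
    have b1 : (Y1 ∩ S2) ∪ (Y2 ∩ S2.erase x) = (Y1 ∪ Y2) ∩ S2 := by
      ext y
      simp only [Finset.mem_union, Finset.mem_inter, Finset.mem_erase]
      constructor
      · rintro (h | h)
        · exact ⟨Or.inl h.1, h.2⟩
        · exact ⟨Or.inr h.1, h.2.2⟩
      · rintro ⟨h | h, h'⟩
        · exact Or.inl ⟨h, h'⟩
        · by_cases hy : y = x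
          · subst hy; exact Or.inl ⟨hxY1, h'⟩
          · exact Or.inr ⟨h, hy, h'⟩
    have b2 : (Y1 ∩ S2) ∩ (Y2 ∩ S2.erase x) = ((Y1 ∩ Y2).erase x) ∩ S2 := by
      ext y
      simp only [Finset.mem_inter, Finset.mem_erase]
      tauto
    rw [a1, a2] at e1
    rw [b1, b2] at e2
    have c1 := h (Y1 ∪ Y2) (Finset.union_subset hY1I hY2I)
    have c2 := h ((Y1 ∩ Y2).erase x)
      ((Finset.erase_subset _ _).trans (Finset.inter_subset_left.trans hY1I))
    have d1 : ((Y1 ∪ Y2).card : ℤ) + (Y1 ∩ Y2).card = Y1.card + Y2.card := by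
      exact_mod_cast Finset.card_union_add_card_inter Y1 Y2
    have d2 : (((Y1 ∩ Y2).erase x).card : ℤ) + 1 = (Y1 ∩ Y2).card := by
      exact_mod_cast Finset.card_erase_add_one (Finset.mem_inter.2 ⟨hxY1, hxY2⟩)
    linarith

theorem split (r1 r2 : Finset β → ℤ)
    (s1 : ∀ A B, r1 (A ∪ B) + r1 (A ∩ B) ≤ r1 A + r1 B)
    (s2 : ∀ A B, r2 (A ∪ B) + r2 (A ∩ B) ≤ r2 A + r2 B)
    (z1 : r1 ∅ = 0) (z2 : r2 ∅ = 0) (I : Finset β)
    (h : ∀ Y ⊆ I, (Y.card : ℤ) ≤ r1 Y + r2 Y) :
    ∃ I1 I2, I1 ∪ I2 = I ∧ (I1.card : ℤ) ≤ r1 I1 ∧ (I2.card : ℤ) ≤ r2 I2 := by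
  apply split_aux r1 r2 s1 s2 z1 z2 I _ I I rfl (Finset.union_self I)
  intro Y hY
  rw [Finset.inter_eq_left.2 hY]
  exact h Y hY

/-- rank function minus: `card - nul` is submodular -/
theorem rk_sub (Z : Submodule F2 (β → F2)) (A B : Finset β) :
    (((A ∪ B).card : ℤ) - nul Z (A ∪ B)) + (((A ∩ B).card : ℤ) - nul Z (A ∩ B)) ≤
      ((A.card : ℤ) - nul Z A) + ((B.card : ℤ) - nul Z B) := by
  have h1 := nul_super Z A B
  have h2 := Finset.card_union_add_card_inter A B
  have h1' : (nul Z A : ℤ) + nul Z B ≤ nul Z (A ∪ B) + nul Z (A ∩ B) := by exact_mod_cast h1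
  have h2' : ((A ∪ B).card : ℤ) + (A ∩ B).card = A.card + B.card := by exact_mod_cast h2
  linarith

variable {Zh Z1 Z2 : Submodule F2 (β → F2)} {F : Finset β}

/-- the independent sets of the matroid of `Zh` inside `F` are the unions -/
def IsUnion (Zh Z1 Z2 : Submodule F2 (β → F2)) (F : Finset β) : Prop :=
  ∀ I ⊆ F, Ind Zh I ↔ ∃ I1 I2, I1 ∪ I2 = I ∧ Ind Z1 I1 ∧ Ind Z2 I2

theorem Ind.mono {Z : Submodule F2 (β → F2)} {A B : Finset β} (h : Ind Z B) (hAB : A ⊆ B) :
    Ind Z A := fun z hz hzA => h z hz (fun x hx => hzA x (fun h' => hx (hAB h')))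

theorem union_nul_le (hU : IsUnion Zh Z1 Z2 F) (X : Finset β) (hX : X ⊆ F) :
    nul Z1 X + nul Z2 X ≤ X.card + nul Zh X := by
  induction hn : nul Zh X generalizing X with
  | zero =>
    rw [nul_eq_zero] at hn
    obtain ⟨I1, I2, hI, h1, h2⟩ := (hU X hX).1 hn
    have e1 : nul Z1 X ≤ nul Z1 I1 + (X \ I1).card := by
      have := nul_union_le Z1 I1 (X \ I1)
      rwa [Finset.union_sdiff_of_subset (by rw [← hI]; exact subset_union_left)] at this
    have e2 : nul Z2 X ≤ nul Z2 I2 + (X \ I2).card := by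
      have := nul_union_le Z2 I2 (X \ I2)
      rwa [Finset.union_sdiff_of_subset (by rw [← hI]; exact subset_union_right)] at this
    rw [nul_eq_zero.2 h1] at e1
    rw [nul_eq_zero.2 h2] at e2
    have e3 : (X \ I1).card + (X \ I2).card ≤ X.card := by
      rw [← Finset.card_union_of_disjoint]
      · apply Finset.card_le_card
        exact Finset.union_subset Finset.sdiff_subset Finset.sdiff_subset
      · rw [Finset.disjoint_left]
        intro x hx hx'
        rw [Finset.mem_sdiff] at hx hx'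
        have : x ∈ I1 ∪ I2 := by rw [hI]; exact hx.1
        rcases Finset.mem_union.1 this with h | h
        · exact hx.2 h
        · exact hx'.2 h
    omega
  | succ n ih =>
    have : ¬ Ind Zh X := by
      rw [← nul_eq_zero]; omega
    unfold Ind at this
    push Not at this
    obtain ⟨z, hz, hzX, hz0⟩ := this
    obtain ⟨x, hx⟩ := Function.ne_iff.1 hz0
    have h1 := nul_erase hz hzX hx
    have hxX : x ∈ X := by
      by_contra h
      exact hx (hzX x h)
    have h2 := ih (X.erase x) ((Finset.erase_subset _ _).trans hX) (by omega)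
    have h3 := nul_insert_le Z1 (X.erase x) x
    have h4 := nul_insert_le Z2 (X.erase x) x
    rw [Finset.insert_erase hxX] at h3 h4
    have h5 := Finset.card_erase_add_one hxX
    omega

theorem union_nul_eq (hU : IsUnion Zh Z1 Z2 F) (X : Finset β) (hX : X ⊆ F)
    (hc : ∀ x ∈ X, ∃ z ∈ Zh, (∀ y ∉ X, z y = 0) ∧ z x ≠ 0) :
    nul Z1 X + nul Z2 X = X.card + nul Zh X := by
  classical
  -- a maximal independent subset
  obtain ⟨I, hI, hmax⟩ := Finset.exists_max_image (X.powerset.filter (fun I => Ind Zh I))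
    Finset.card ⟨∅, by
      rw [Finset.mem_filter]
      exact ⟨Finset.empty_mem_powerset _, nul_eq_zero.1 (nul_empty Zh)⟩⟩
  rw [Finset.mem_filter, Finset.mem_powerset] at hI
  obtain ⟨hIX, hInd⟩ := hI
  set k : Finset β → ℤ := fun Y => (Y.card : ℤ) - nul Z1 Y - nul Z2 Y with hk
  have ksub : ∀ A B, k (A ∪ B) + k (A ∩ B) ≤ k A + k B := by
    intro A B
    have e1 := nul_super Z1 A B
    have e2 := nul_super Z2 A B
    have e3 := Finset.card_union_add_card_inter A B
    simp only [hk]
    have e1' : (nul Z1 A : ℤ) + nul Z1 B ≤ nul Z1 (A ∪ B) + nul Z1 (A ∩ B) := by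
      exact_mod_cast e1
    have e2' : (nul Z2 A : ℤ) + nul Z2 B ≤ nul Z2 (A ∪ B) + nul Z2 (A ∩ B) := by
      exact_mod_cast e2
    have e3' : ((A ∪ B).card : ℤ) + (A ∩ B).card = A.card + B.card := by exact_mod_cast e3
    linarith
  have kge : ∀ Y ⊆ F, -(nul Zh Y : ℤ) ≤ k Y := by
    intro Y hY
    have := union_nul_le hU Y hY
    simp only [hk]
    have : (nul Z1 Y : ℤ) + nul Z2 Y ≤ Y.card + nul Zh Y := by exact_mod_cast this
    linarith
  have kI : ∀ Y ⊆ I, 0 ≤ k Y := by
    intro Y hY
    have h1 := kge Y (hY.trans (hIX.trans hX))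
    rw [nul_eq_zero.2 (hInd.mono hY)] at h1
    simpa using h1
  -- for every x outside I a tight set
  have htight : ∀ x ∈ X \ I, ∃ T ⊆ I, k T = 0 ∧ k (insert x T) ≤ -1 := by
    intro x hx
    rw [Finset.mem_sdiff] at hx
    have hnot : ¬ Ind Zh (insert x I) := by
      intro h
      have := hmax (insert x I) (by
        rw [Finset.mem_filter, Finset.mem_powerset]
        exact ⟨Finset.insert_subset hx.1 hIX, h⟩)
      rw [Finset.card_insert_of_notMem hx.2] at this
      omega
    have hsub : insert x I ⊆ F := Finset.insert_subset (hX hx.1) (hIX.trans hX)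
    have hex : ∃ Y ⊆ insert x I, k Y < 0 := by
      by_contra hcon
      push Not at hcon
      apply hnot
      rw [hU _ hsub]
      obtain ⟨I1, I2, h12, h1, h2⟩ := split (fun Y => (Y.card : ℤ) - nul Z1 Y)
        (fun Y => (Y.card : ℤ) - nul Z2 Y) (rk_sub Z1) (rk_sub Z2)
        (by simp [nul_empty]) (by simp [nul_empty]) (insert x I) (by
          intro Y hY
          have := hcon Y hY
          simp only [hk] at this
          linarith)
      refine ⟨I1, I2, h12, ?_, ?_⟩
      · rw [← nul_eq_zero]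
        have : (nul Z1 I1 : ℤ) ≤ 0 := by linarith
        omega
      · rw [← nul_eq_zero]
        have : (nul Z2 I2 : ℤ) ≤ 0 := by linarith
        omega
    obtain ⟨Y, hY, hkY⟩ := hex
    have hxY : x ∈ Y := by
      by_contra h
      have : Y ⊆ I := by
        intro y hy
        rcases Finset.mem_insert.1 (hY hy) with h' | h'
        · subst h'; exact absurd hy h
        · exact h'
      exact absurd (kI Y this) (not_le.2 hkY)
    have hTI : Y.erase x ⊆ I := by
      intro y hy
      rw [Finset.mem_erase] at hy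
      rcases Finset.mem_insert.1 (hY hy.2) with h' | h'
      · exact absurd h' hy.1
      · exact h'
    refine ⟨Y.erase x, hTI, ?_, ?_⟩
    · have h0 := kI _ hTI
      have h1 := nul_insert_le Z1 (Y.erase x) x
      have h2 := nul_insert_le Z2 (Y.erase x) x
      rw [Finset.insert_erase hxY] at h1 h2
      have h3 := Finset.card_erase_add_one hxY
      simp only [hk] at *
      have h1' : (nul Z1 Y : ℤ) ≤ nul Z1 (Y.erase x) + 1 := by exact_mod_cast h1
      have h2' : (nul Z2 Y : ℤ) ≤ nul Z2 (Y.erase x) + 1 := by exact_mod_cast h2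
      have h3' : ((Y.erase x).card : ℤ) + 1 = Y.card := by exact_mod_cast h3
      linarith
    · rw [Finset.insert_erase hxY]
      linarith [Int.add_one_le_iff.2 hkY]
  -- a single tight set
  have hT : ∀ S ⊆ X \ I, ∃ T ⊆ I, k T = 0 ∧ ∀ x ∈ S, k (insert x T) ≤ -1 := by
    intro S
    induction S using Finset.induction_on with
    | empty =>
      intro _
      refine ⟨∅, Finset.empty_subset _, by simp [hk, nul_empty], by simp⟩
    | insert x S hxS ih =>
      intro hS
      obtain ⟨T, hTI, hT0, hTS⟩ := ih ((Finset.subset_insert _ _).trans hS)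
      have hxXI := hS (Finset.mem_insert_self x S)
      obtain ⟨T', hTI', hT0', hTx⟩ := htight x hxXI
      have hU0 : k (T ∪ T') = 0 := by
        have h1 := ksub T T'
        have h2 := kI (T ∩ T') (Finset.inter_subset_left.trans hTI)
        have h3 := kI (T ∪ T') (Finset.union_subset hTI hTI')
        linarith
      have key : ∀ y ∉ I, ∀ T₀ ⊆ T ∪ T', k T₀ = 0 → k (insert y T₀) ≤ -1 →
          k (insert y (T ∪ T')) ≤ -1 := by
        intro y hy T₀ hT₀ h0 h1
        have h2 := ksub (T ∪ T') (insert y T₀)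
        have e1 : (T ∪ T') ∪ insert y T₀ = insert y (T ∪ T') := by
          rw [Finset.union_insert, Finset.union_eq_left.2 hT₀]
        have e2 : (T ∪ T') ∩ insert y T₀ = T₀ := by
          rw [Finset.inter_insert_of_notMem, Finset.inter_eq_right.2 hT₀]
          intro h
          exact hy ((Finset.union_subset hTI hTI') h)
        rw [e1, e2, h0, hU0] at h2
        linarith
      refine ⟨T ∪ T', Finset.union_subset hTI hTI', hU0, ?_⟩
      intro y hy
      rcases Finset.mem_insert.1 hy with h | h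
      · subst h
        exact key y (Finset.mem_sdiff.1 hxXI).2 T' subset_union_right hT0' hTx
      · exact key y (Finset.mem_sdiff.1 (hS (Finset.mem_insert_of_mem h))).2 T subset_union_left
          hT0 (hTS y h)
  obtain ⟨T, hTI, hT0, hTS⟩ := hT (X \ I) (Finset.Subset.refl _)
  have hY : ∀ S ⊆ X \ I, k (T ∪ S) ≤ -(S.card : ℤ) := by
    intro S
    induction S using Finset.induction_on with
    | empty => intro _; simp [hT0]
    | insert x S hxS ih =>
      intro hS
      have h1 := ih ((Finset.subset_insert _ _).trans hS)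
      have h2 := hTS x (hS (Finset.mem_insert_self x S))
      have h3 := ksub (T ∪ S) (insert x T)
      have hxI := (Finset.mem_sdiff.1 (hS (Finset.mem_insert_self x S))).2
      have e1 : (T ∪ S) ∪ insert x T = T ∪ insert x S := by
        ext y
        simp only [Finset.mem_union, Finset.mem_insert]
        tauto
      have e2 : (T ∪ S) ∩ insert x T = T := by
        ext y
        simp only [Finset.mem_union, Finset.mem_insert, Finset.mem_inter]
        constructor
        · rintro ⟨h | h, h' | h'⟩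
          · exact h
          · exact h
          · subst h'; exact absurd h hxS
          · exact h'
        · intro h; exact ⟨Or.inl h, Or.inr h⟩
      rw [e1, e2, hT0, add_zero] at h3
      rw [Finset.card_insert_of_notMem hxS]
      push_cast
      linarith
  have hYX := hY (X \ I) (Finset.Subset.refl _)
  set Y := T ∪ (X \ I) with hYdef
  have hYsub : Y ⊆ X := Finset.union_subset (hTI.trans hIX) Finset.sdiff_subset
  have h1 := kge Y (hYsub.trans hX)
  have h2 := nul_mono Zh hYsub
  have h3 : nul Zh X ≤ (X \ I).card := by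
    have := nul_union_le Zh I (X \ I)
    rw [Finset.union_sdiff_of_subset hIX, nul_eq_zero.2 hInd] at this
    simpa using this
  have h2' : (nul Zh Y : ℤ) ≤ nul Zh X := by exact_mod_cast h2
  have h3' : (nul Zh X : ℤ) ≤ (X \ I).card := by exact_mod_cast h3
  have h4 : nul Zh Y = nul Zh X := by
    have : (nul Zh Y : ℤ) = nul Zh X := by linarith
    exact_mod_cast this
  have h5 : Y = X := by
    apply Finset.Subset.antisymm hYsub
    intro x hx
    by_contra hxY
    obtain ⟨z, hz, hzX, hzx⟩ := hc x hx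
    have h6 := nul_erase hz hzX hzx
    have h7 : nul Zh Y ≤ nul Zh (X.erase x) := by
      apply nul_mono
      intro y hy
      rw [Finset.mem_erase]
      exact ⟨by rintro rfl; exact hxY hy, hYsub hy⟩
    omega
  rw [h5] at hYX h1
  have h6 : k X = -(nul Zh X : ℤ) := by linarith
  simp only [hk] at h6
  have : (nul Z1 X : ℤ) + nul Z2 X = X.card + nul Zh X := by linarith
  exact_mod_cast this

end Union

end Pool.Agent.Helper263.Recski
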